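import Pool.Agent.W5h64.MetabRep

/-! Every Malcev algebra in characteristic zero in which all products of five elements vanish has
a faithful representation. -/

set_option linter.unusedSimpArgs false
set_option linter.unusedSectionVars false

namespace Pool.Agent.W5h64.Mal

universe u v

variable {F : Type u} {A : Type v} [Field F] [AddCommGroup A] [Module F A]

/-- all products of five elements vanish -/
structure Nil5 (m : A →ₗ[F] A →ₗ[F] A) : Prop where
  n1 : ∀ a b c d e, m (m (m (m a b) c) d) e = 0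
  n2 : ∀ a b c d e, m (m (m a b) (m c d)) e = 0
  n3 : ∀ a b c d e, m (m (m a b) c) (m d e) = 0

section nil
variable {m : A →ₗ[F] A →ₗ[F] A} (h : IsMalcev m) (hn : Nil5 m)
include h hn

theorem n4 (a b c d e : A) : m (m (m a (m b c)) d) e = 0 := by
  rw [h.swap a (m b c)]; simp [hn.n1]
theorem n5 (a b c d e : A) : m (m a (m (m b c) d)) e = 0 := by
  rw [h.swap a]; simp [hn.n1]
theorem n6 (a b c d e : A) : m (m a (m b (m c d))) e = 0 := by
  rw [h.swap a]; simp [n4 h hn]
theorem n7 (a b c d e : A) : m (m a (m b c)) (m d e) = 0 := by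
  rw [h.swap a]; simp [hn.n3]
theorem n8 (a b c d e : A) : m (m a b) (m (m c d) e) = 0 := by
  rw [h.swap]; simp [hn.n3]
theorem n9 (a b c d e : A) : m (m a b) (m c (m d e)) = 0 := by
  rw [h.swap]; simp [n7 h hn]
theorem n10 (a b c d e : A) : m a (m (m (m b c) d) e) = 0 := by
  rw [h.swap]; simp [hn.n1]
theorem n11 (a b c d e : A) : m a (m (m b (m c d)) e) = 0 := by
  rw [h.swap]; simp [n4 h hn]
theorem n12 (a b c d e : A) : m a (m (m b c) (m d e)) = 0 := by
  rw [h.swap]; simp [hn.n2]
theorem n13 (a b c d e : A) : m a (m b (m (m c d) e)) = 0 := by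
  rw [h.swap]; simp [n5 h hn]
theorem n14 (a b c d e : A) : m a (m b (m c (m d e))) = 0 := by
  rw [h.swap]; simp [n6 h hn]
end nil

/-- The natural retraction of the universal enveloping algebra onto `A`, on reversed words. -/
def P (m : A →ₗ[F] A →ₗ[F] A) : List A → A
  | [] => 0
  | [a] => a
  | [b, a] => (-1/2 : F) • m a b
  | [c, b, a] => (1/2 : F) • m a (m b c) + (1/2 : F) • m (m a b) c
  | [d, c, b, a] => (-1/2 : F) • m a (m (m b c) d) + (1/4 : F) • m (m a b) (m c d)
      + (1/4 : F) • m (m a c) (m b d) - (1/2 : F) • m (m a (m b c)) d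
      - (1/2 : F) • m (m (m a b) c) d - (1/2 : F) • m (m (m a c) b) d
      + (1/4 : F) • m (m a d) (m b c) + m (m a (m b d)) c
  | _ => 0

section P
variable (m : A →ₗ[F] A →ₗ[F] A)

theorem P_0 : P m [] = 0 := rfl
theorem P_1 (a : A) : P m [a] = a := rfl
theorem P_2 (a b : A) : P m [b, a] = (-1/2 : F) • m a b := rfl
theorem P_3 (a b c : A) : P m [c, b, a] =
    (1/2 : F) • m a (m b c) + (1/2 : F) • m (m a b) c := rfl
theorem P_4 (a b c d : A) : P m [d, c, b, a] =
    (-1/2 : F) • m a (m (m b c) d) + (1/4 : F) • m (m a b) (m c d)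
      + (1/4 : F) • m (m a c) (m b d) - (1/2 : F) • m (m a (m b c)) d
      - (1/2 : F) • m (m (m a b) c) d - (1/2 : F) • m (m (m a c) b) d
      + (1/4 : F) • m (m a d) (m b c) + m (m a (m b d)) c := rfl
theorem P_5 (a b c d e : A) (l : List A) : P m (a :: b :: c :: d :: e :: l) = 0 := rfl

theorem P_5' (a b c d e : A) (l' l : List A) :
    P m (a :: b :: c :: d :: (l' ++ e :: l)) = 0 := by
  cases l' <;> rfl

theorem P_add (l' : List A) (a b : A) (l : List A) :
    P m (l' ++ (a + b) :: l) = P m (l' ++ a :: l) + P m (l' ++ b :: l) := by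
  rcases l' with _ | ⟨a1, _ | ⟨a2, _ | ⟨a3, _ | ⟨a4, l'⟩⟩⟩⟩ <;>
  rcases l with _ | ⟨b1, _ | ⟨b2, _ | ⟨b3, _ | ⟨b4, l⟩⟩⟩⟩ <;>
  simp only [List.nil_append, List.cons_append, P_0, P_1, P_2, P_3, P_4, P_5, P_5', map_add,
    LinearMap.add_apply] <;> module

theorem P_smul (l' : List A) (t : F) (a : A) (l : List A) :
    P m (l' ++ (t • a) :: l) = t • P m (l' ++ a :: l) := by
  rcases l' with _ | ⟨a1, _ | ⟨a2, _ | ⟨a3, _ | ⟨a4, l'⟩⟩⟩⟩ <;>
  rcases l with _ | ⟨b1, _ | ⟨b2, _ | ⟨b3, _ | ⟨b4, l⟩⟩⟩⟩ <;>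
  simp only [List.nil_append, List.cons_append, P_0, P_1, P_2, P_3, P_4, P_5, P_5', map_smul,
    LinearMap.smul_apply] <;> module

variable {m} (h : IsMalcev m) (hn : Nil5 m)
include h

theorem P_rel0 [CharZero F] (x y z : A) :
    P m [m (m x y) z] = P m [y, m x z] + P m [m y z, x] - P m [z, x, y] + P m [x, y, z] := by
  simp only [P_1, P_2, P_3]
  simp only [h.swap y x, h.swap z x, h.swap z y, map_neg, LinearMap.neg_apply]
  rw [h.swap y (m x z), h.swap z (m x y), h.swap x (m y z)]
  module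

theorem P_rel1 [CharZero F] (x y z e : A) :
    P m [m (m x y) z, e] = P m [y, m x z, e] + P m [m y z, x, e] - P m [z, x, y, e]
      + P m [x, y, z, e] := by
  simp only [P_1, P_2, P_3, P_4]
  have h1 := h.lin x y z e
  have h2 := h.lin x z e y
  have h3 := h.lin x y e z
  have h4 := h.lin x e y z
  have h5 := h.lin x z y e
  simp only [h.swap y x, h.swap z x, h.swap e x, h.swap z y, h.swap e y, h.swap e z, h.swap z (m x y),
    h.swap e (m (m x y) z), h.swap e (m x y), h.swap z (m (m x y) e), h.swap y (m x z),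
    h.swap e (m (m x z) y), h.swap e (m x z), h.swap y (m (m x z) e), h.swap y (m x e),
    h.swap z (m (m x e) y), h.swap z (m x e), h.swap y (m (m x e) z), h.swap x (m y z),
    h.swap e (m (m y z) x), h.swap e (m y z), h.swap x (m (m y z) e), h.swap x (m y e),
    h.swap z (m (m y e) x), h.swap z (m y e), h.swap x (m (m y e) z), h.swap x (m z e),
    h.swap y (m (m z e) x), h.swap y (m z e), h.swap x (m (m z e) y), h.swap (m z e) (m x
    y), h.swap (m y e) (m x z), h.swap (m y z) (m x e),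
    map_neg, LinearMap.neg_apply, neg_neg, smul_neg] at h1 h2 h3 h4 h5 ⊢
  linear_combination (norm := module) (3/4 : F) • h1 + (1/4 : F) • h2 + (1/2 : F) • h3
    + (1/4 : F) • h4 + (1/2 : F) • h5

theorem P_rel1' [CharZero F] (x y z e : A) :
    P m [e, m (m x y) z] = P m [e, y, m x z] + P m [e, m y z, x] - P m [e, z, x, y]
      + P m [e, x, y, z] := by
  simp only [P_1, P_2, P_3, P_4]
  have h1 := h.lin x y z e
  have h2 := h.lin x z e y
  have h3 := h.lin x y e z
  have h4 := h.lin x e y z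
  have h5 := h.lin x z y e
  simp only [h.swap y x, h.swap z x, h.swap e x, h.swap z y, h.swap e y, h.swap e z, h.swap z (m x y),
    h.swap e (m (m x y) z), h.swap e (m x y), h.swap z (m (m x y) e), h.swap y (m x z),
    h.swap e (m (m x z) y), h.swap e (m x z), h.swap y (m (m x z) e), h.swap y (m x e),
    h.swap z (m (m x e) y), h.swap z (m x e), h.swap y (m (m x e) z), h.swap x (m y z),
    h.swap e (m (m y z) x), h.swap e (m y z), h.swap x (m (m y z) e), h.swap x (m y e),
    h.swap z (m (m y e) x), h.swap z (m y e), h.swap x (m (m y e) z), h.swap x (m z e),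
    h.swap y (m (m z e) x), h.swap y (m z e), h.swap x (m (m z e) y), h.swap (m z e) (m x
    y), h.swap (m y e) (m x z), h.swap (m y z) (m x e),
    map_neg, LinearMap.neg_apply, neg_neg, smul_neg] at h1 h2 h3 h4 h5 ⊢
  linear_combination (norm := module) (-3/4 : F) • h1 + (1/4 : F) • h2 - (1/2 : F) • h3
    - (1/4 : F) • h4 - (1/2 : F) • h5

include hn

theorem P_rel [CharZero F] (l' : List A) (x y z : A) (l : List A) :
    P m (l' ++ m (m x y) z :: l) = P m (l' ++ y :: m x z :: l) + P m (l' ++ m y z :: x :: l)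
      - P m (l' ++ z :: x :: y :: l) + P m (l' ++ x :: y :: z :: l) := by
  rcases l' with _ | ⟨a1, _ | ⟨a2, _ | ⟨a3, _ | ⟨a4, l'⟩⟩⟩⟩
  · rcases l with _ | ⟨b1, _ | ⟨b2, _ | ⟨b3, _ | ⟨b4, l⟩⟩⟩⟩
    · exact P_rel0 h x y z
    · exact P_rel1 h x y z b1
    all_goals
      simp only [List.nil_append, List.cons_append, P_0, P_1, P_2, P_3, P_4, P_5, P_5',
        hn.n1, hn.n2, hn.n3, n4 h hn, n5 h hn, n6 h hn, n7 h hn, n8 h hn, n9 h hn, n10 h hn,
        n11 h hn, n12 h hn, n13 h hn, n14 h hn, smul_zero, add_zero, sub_zero, map_zero,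
        LinearMap.zero_apply]
  · rcases l with _ | ⟨b1, _ | ⟨b2, _ | ⟨b3, _ | ⟨b4, l⟩⟩⟩⟩
    · exact P_rel1' h x y z a1
    all_goals
      simp only [List.nil_append, List.cons_append, P_0, P_1, P_2, P_3, P_4, P_5, P_5',
        hn.n1, hn.n2, hn.n3, n4 h hn, n5 h hn, n6 h hn, n7 h hn, n8 h hn, n9 h hn, n10 h hn,
        n11 h hn, n12 h hn, n13 h hn, n14 h hn, smul_zero, add_zero, sub_zero, map_zero,
        LinearMap.zero_apply]
  all_goals
    rcases l with _ | ⟨b1, _ | ⟨b2, _ | ⟨b3, _ | ⟨b4, l⟩⟩⟩⟩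
  all_goals
    simp only [List.nil_append, List.cons_append, P_0, P_1, P_2, P_3, P_4, P_5, P_5',
        hn.n1, hn.n2, hn.n3, n4 h hn, n5 h hn, n6 h hn, n7 h hn, n8 h hn, n9 h hn, n10 h hn,
        n11 h hn, n12 h hn, n13 h hn, n14 h hn, smul_zero, add_zero, sub_zero, map_zero,
        LinearMap.zero_apply]

end P

/-- Multilinear functionals on words that respect the defining relations of the universal
multiplicative envelope (words are written backwards). -/
def Fun (m : A →ₗ[F] A →ₗ[F] A) : Submodule F (List A → F) where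
  carrier := {φ | (∀ (l' : List A) (a b : A) (l : List A),
      φ (l' ++ (a + b) :: l) = φ (l' ++ a :: l) + φ (l' ++ b :: l)) ∧
    (∀ (l' : List A) (t : F) (a : A) (l : List A), φ (l' ++ (t • a) :: l) = t * φ (l' ++ a :: l)) ∧
    (∀ (l' : List A) (x y z : A) (l : List A), φ (l' ++ m (m x y) z :: l) =
      φ (l' ++ y :: m x z :: l) + φ (l' ++ m y z :: x :: l)
      - φ (l' ++ z :: x :: y :: l) + φ (l' ++ x :: y :: z :: l))}
  zero_mem' := by simp
  add_mem' := by
    rintro φ ψ ⟨h1, h2, h3⟩ ⟨k1, k2, k3⟩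
    refine ⟨fun l' a b l => ?_, fun l' t a l => ?_, fun l' x y z l => ?_⟩
    · simp only [Pi.add_apply, h1, k1]; ring
    · simp only [Pi.add_apply, h2, k2]; ring
    · simp only [Pi.add_apply, h3, k3]; ring
  smul_mem' := by
    rintro c φ ⟨h1, h2, h3⟩
    refine ⟨fun l' a b l => ?_, fun l' t a l => ?_, fun l' x y z l => ?_⟩
    · simp only [Pi.smul_apply, h1, smul_eq_mul]; ring
    · simp only [Pi.smul_apply, h2, smul_eq_mul]; ring
    · simp only [Pi.smul_apply, h3, smul_eq_mul]; ring

/-- The regular action on functionals. -/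
def regRep (m : A →ₗ[F] A →ₗ[F] A) : A →ₗ[F] Module.End F (Fun m) where
  toFun a :=
    { toFun := fun φ => ⟨fun l => φ.1 (a :: l), by
        obtain ⟨φ, h1, h2, h3⟩ := φ
        exact ⟨fun l' b c l => h1 (a :: l') b c l, fun l' t b l => h2 (a :: l') t b l,
          fun l' x y z l => h3 (a :: l') x y z l⟩⟩
      map_add' := fun _ _ => rfl
      map_smul' := fun _ _ => rfl }
  map_add' a b := by
    apply LinearMap.ext
    intro φ
    apply Subtype.ext
    funext l
    exact φ.2.1 [] a b l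
  map_smul' t a := by
    apply LinearMap.ext
    intro φ
    apply Subtype.ext
    funext l
    exact φ.2.2.1 [] t a l

theorem regRep_star (m : A →ₗ[F] A →ₗ[F] A) : Star m (regRep m) := by
  intro x y z φ
  apply Subtype.ext
  funext l
  exact φ.2.2.2 [] x y z l

/-- Every Malcev algebra over a field of characteristic zero in which all products of five
elements vanish has a faithful representation. -/
theorem class4_faithful [CharZero F] (m : A →ₗ[F] A →ₗ[F] A) (h : IsMalcev m) (hn : Nil5 m) :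
    ∃ (V : Type (max u v)) (_ : AddCommGroup V) (_ : Module F V) (ρ : A →ₗ[F] Module.End F V),
      Star m ρ ∧ Function.Injective ρ := by
  refine ⟨_, _, _, regRep m, regRep_star m, ?_⟩
  rw [injective_iff_map_eq_zero]
  intro a ha
  refine (Module.forall_dual_apply_eq_zero_iff F _).mp fun f => ?_
  have hφ : (fun l => f (P m l)) ∈ Fun m := by
    refine ⟨fun l' a b l => ?_, fun l' t a l => ?_, fun l' x y z l => ?_⟩
    · simp only [P_add, map_add]
    · simp only [P_smul, map_smul, smul_eq_mul]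
    · simp only [P_rel h hn, map_add, map_sub]
  have h2 := congrArg (fun T => (T ⟨_, hφ⟩).1 []) ha
  exact h2

end Pool.Agent.W5h64.Mal
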