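import Pool.Agent.W5h64.Class4
import Pool.Agent.W5h64.PBW

/-! Quotients, sums of representations, and the combined criterion. -/

set_option linter.unusedSimpArgs false
set_option linter.unusedSectionVars false

namespace Pool.Agent.W5h64.Mal

universe u v

variable {F : Type u} {A : Type v} [Field F] [AddCommGroup A] [Module F A]

theorem idealGen_isIdeal (m : A →ₗ[F] A →ₗ[F] A) (S : Set A) : IsIdeal m (idealGen m S) := by
  intro x hx y
  rw [idealGen, Submodule.mem_sInf] at hx ⊢
  intro I hI
  exact hI.1 x (hx I hI) y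

theorem subset_idealGen (m : A →ₗ[F] A →ₗ[F] A) (S : Set A) : S ⊆ idealGen m S := by
  intro x hx
  rw [SetLike.mem_coe, idealGen, Submodule.mem_sInf]
  intro I hI
  exact hI.2 hx

section quot
variable (m : A →ₗ[F] A →ₗ[F] A) (h : IsMalcev m) (I : Submodule F A) (hI : IsIdeal m I)

/-- product on the quotient -/
def qmul : (A ⧸ I) →ₗ[F] (A ⧸ I) →ₗ[F] (A ⧸ I) :=
  I.liftQ
    { toFun := fun a => I.mapQ I (m a) (by
        intro x hx
        rw [Submodule.mem_comap, h.swap]
        exact I.neg_mem (hI x hx a))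
      map_add' := by
        intro a b
        apply LinearMap.ext
        intro x
        obtain ⟨x, rfl⟩ := I.mkQ_surjective x
        simp
      map_smul' := by
        intro c a
        apply LinearMap.ext
        intro x
        obtain ⟨x, rfl⟩ := I.mkQ_surjective x
        simp }
    (by
      intro x hx
      rw [LinearMap.mem_ker]
      apply LinearMap.ext
      intro y
      obtain ⟨y, rfl⟩ := I.mkQ_surjective y
      simp only [LinearMap.coe_mk, AddHom.coe_mk, Submodule.mkQ_apply, Submodule.mapQ_apply,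
        LinearMap.zero_apply]
      exact (Submodule.Quotient.mk_eq_zero I).mpr (hI x hx y))

theorem qmul_mk (a b : A) : qmul m h I hI (I.mkQ a) (I.mkQ b) = I.mkQ (m a b) := rfl

theorem qmul_malcev : IsMalcev (qmul m h I hI) := by
  constructor
  · intro x
    obtain ⟨x, rfl⟩ := I.mkQ_surjective x
    rw [qmul_mk, h.sq, map_zero]
  · intro x y z
    obtain ⟨x, rfl⟩ := I.mkQ_surjective x
    obtain ⟨y, rfl⟩ := I.mkQ_surjective y
    obtain ⟨z, rfl⟩ := I.mkQ_surjective z
    simp only [qmul_mk, h.malcev x y z, map_add]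

end quot

/-- There is a representation (in operator form) whose kernel is contained in `I`. -/
def RepKer (m : A →ₗ[F] A →ₗ[F] A) (I : Submodule F A) : Prop :=
  ∃ (V : Type (max u v)) (_ : AddCommGroup V) (_ : Module F V) (ρ : A →ₗ[F] Module.End F V),
      Star m ρ ∧ ∀ a, ρ a = 0 → a ∈ I

theorem RepKer.inf {m : A →ₗ[F] A →ₗ[F] A} {I J : Submodule F A} (h1 : RepKer m I)
    (h2 : RepKer m J) : RepKer m (I ⊓ J) := by
  obtain ⟨V, _, _, ρ, hs, hk⟩ := h1
  obtain ⟨W, _, _, σ, hs', hk'⟩ := h2
  let τ : A →ₗ[F] Module.End F (V × W) :=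
    { toFun := fun a => (ρ a).prodMap (σ a)
      map_add' := by intro a b; ext <;> simp
      map_smul' := by intro a b; ext <;> simp }
  have hτ : ∀ a v w, τ a (v, w) = (ρ a v, σ a w) := fun _ _ _ => rfl
  refine ⟨V × W, _, _, τ, ?_, ?_⟩
  · rintro x y z ⟨v, w⟩
    simp only [hτ]
    rw [hs x y z v, hs' x y z w]
    rfl
  · intro a ha
    refine ⟨hk a ?_, hk' a ?_⟩
    · ext v
      have := congrArg (fun T => (T (v, 0)).1) ha
      simpa [hτ] using this
    · ext w
      have := congrArg (fun T => (T (0, w)).2) ha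
      simpa [hτ] using this

theorem repKer_quot {m : A →ₗ[F] A →ₗ[F] A} (h : IsMalcev m) (I : Submodule F A)
    (hI : IsIdeal m I)
    (hq : ∃ (V : Type (max u v)) (_ : AddCommGroup V) (_ : Module F V)
      (ρ : (A ⧸ I) →ₗ[F] Module.End F V), Star (qmul m h I hI) ρ ∧ Function.Injective ρ) :
    RepKer m I := by
  obtain ⟨V, _, _, ρ, hs, hinj⟩ := hq
  refine ⟨V, _, _, ρ ∘ₗ I.mkQ, ?_, ?_⟩
  · intro x y z v
    exact hs (I.mkQ x) (I.mkQ y) (I.mkQ z) v
  · intro a ha
    have : I.mkQ a = 0 := hinj (by rw [map_zero]; exact ha)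
    simpa using this

theorem adjoint_star {m : A →ₗ[F] A →ₗ[F] A} (h : IsMalcev m) [CharZero F] :
    Star m m := by
  intro x y z v
  have h1 := h.lin x v y z
  have h2 := h.lin x y z v
  have h3 := h.lin x z v y
  simp only [h.swap y x, h.swap z x, h.swap v x, h.swap z y, h.swap v y, h.swap v z, h.swap z (m x y),
    h.swap v (m (m x y) z), h.swap v (m x y), h.swap z (m (m x y) v), h.swap y (m x z),
    h.swap v (m (m x z) y), h.swap v (m x z), h.swap y (m (m x z) v), h.swap y (m x v),
    h.swap z (m (m x v) y), h.swap z (m x v), h.swap y (m (m x v) z), h.swap x (m y z),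
    h.swap v (m (m y z) x), h.swap v (m y z), h.swap x (m (m y z) v), h.swap x (m y v),
    h.swap z (m (m y v) x), h.swap z (m y v), h.swap x (m (m y v) z), h.swap x (m z v),
    h.swap y (m (m z v) x), h.swap y (m z v), h.swap x (m (m z v) y), h.swap (m z v) (m x y),
    h.swap (m y v) (m x z), h.swap (m y z) (m x v), map_neg, LinearMap.neg_apply, neg_neg,
    smul_neg] at h1 h2 h3 ⊢
  linear_combination (norm := module) (-1/2 : F) • h1 - (1/2 : F) • h2 + (1/2 : F) • h3

/-- a Lie algebra has a faithful representation -/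
theorem lie_faithful (m : A →ₗ[F] A →ₗ[F] A) (hsq : ∀ x, m x x = 0)
    (hJ : ∀ x y z, Jac m x y z = 0) :
    ∃ (V : Type (max u v)) (_ : AddCommGroup V) (_ : Module F V) (ρ : A →ₗ[F] Module.End F V),
      Star m ρ ∧ Function.Injective ρ := by
  have hswap : ∀ x y, m x y = - m y x := by
    intro x y
    have h1 := hsq (x + y)
    simp only [map_add, LinearMap.add_apply, hsq, zero_add, add_zero] at h1
    exact eq_neg_of_add_eq_zero_right h1
  let _ : LieRing A :=
    { bracket := fun x y => m x y
      add_lie := by intro x y z; simp [Bracket.bracket]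
      lie_add := by intro x y z; simp [Bracket.bracket]
      lie_self := by intro x; simp [Bracket.bracket, hsq]
      leibniz_lie := by
        intro x y z
        show m x (m y z) = m (m x y) z + m y (m x z)
        have := hJ x y z
        rw [Jac, hswap (m y z) x, hswap z x, map_neg, LinearMap.neg_apply, hswap (m x z) y] at this
        linear_combination (norm := module) -this }
  let _ : LieAlgebra F A :=
    { lie_smul := by intro c x y; show m x (c • y) = c • m x y; simp }
  let b := Module.Basis.ofVectorSpace F A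
  let _ : LinearOrder (Module.Basis.ofVectorSpaceIndex F A) :=
    IsWellOrder.linearOrder WellOrderingRel
  have hb : ∀ x y : A, ⁅x, y⁆ = m x y := fun _ _ => rfl
  refine ⟨MvPolynomial (Module.Basis.ofVectorSpaceIndex F A) F, _, _, PBW.rho b, ?_, ?_⟩
  · intro x y z p
    have c1 := PBW.commute_ops b ⁅x, y⁆ z p
    have c2 := PBW.commute_ops b x y (PBW.rho b z p)
    have c3 := PBW.commute_ops b x y p
    have c4 := PBW.commute_ops b x z (PBW.rho b y p)
    have c5 := congrArg (PBW.rho b x) (PBW.commute_ops b y z p)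
    have c3' := congrArg (PBW.rho b z) c3
    simp only [hb, map_sub] at c1 c2 c3' c4 c5
    rw [c1, c2, c3', c4, c5]
    abel
  · rw [injective_iff_map_eq_zero]
    intro a ha
    by_contra hne
    exact PBW.rho_one_ne b hne (by rw [ha]; rfl)

/-- **Criterion.** If the intersection of the centre, the Jacobian ideal, the ideal generated by
`A²A²` and the fifth power of `A` is zero, then `A` has a faithful representation. -/
theorem criterion [CharZero F] (m : A →ₗ[F] A →ₗ[F] A) (h : IsMalcev m)
    (h0 : centre m ⊓ jacIdeal m ⊓ metIdeal m ⊓ fifthPower m = ⊥) :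
    ∃ (V : Type (max u v)) (_ : AddCommGroup V) (_ : Module F V) (ρ : A →ₗ[F] Module.End F V),
      IsRep m ρ ∧ Function.Injective ρ := by
  have k1 : RepKer m (centre m) := by
    let e : A ≃ₗ[F] ULift.{max u v} A := ULift.moduleEquiv.symm
    refine ⟨ULift.{max u v} A, _, _,
      { toFun := fun a => e.toLinearMap ∘ₗ (m a) ∘ₗ e.symm.toLinearMap
        map_add' := by intro a b; ext x; simp
        map_smul' := by intro a b; ext x; simp }, ?_, ?_⟩
    · intro x y z v
      have := adjoint_star h x y z (e.symm v)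
      simp only [LinearMap.coe_mk, AddHom.coe_mk, LinearMap.comp_apply, LinearEquiv.coe_coe,
        LinearEquiv.symm_apply_apply, this, map_add, map_sub]
    · intro a ha x
      have := congrArg (fun T => e.symm (T (e x))) ha
      simpa using this
  have k2 : RepKer m (jacIdeal m) := by
    have hI : IsIdeal m (jacIdeal m) := idealGen_isIdeal m _
    refine repKer_quot h _ hI ?_
    refine lie_faithful _ (qmul_malcev m h _ _).sq ?_
    intro x y z
    obtain ⟨x, rfl⟩ := (jacIdeal m).mkQ_surjective x
    obtain ⟨y, rfl⟩ := (jacIdeal m).mkQ_surjective y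
    obtain ⟨z, rfl⟩ := (jacIdeal m).mkQ_surjective z
    simp only [Jac, qmul_mk, ← map_add]
    rw [Submodule.mkQ_apply, Submodule.Quotient.mk_eq_zero]
    exact subset_idealGen m _ ⟨x, y, z, rfl⟩
  have k3 : RepKer m (metIdeal m) := by
    have hI : IsIdeal m (metIdeal m) := idealGen_isIdeal m _
    refine repKer_quot h _ hI ?_
    refine metab_faithful _ (qmul_malcev m h _ _) ?_
    intro x y z t
    obtain ⟨x, rfl⟩ := (metIdeal m).mkQ_surjective x
    obtain ⟨y, rfl⟩ := (metIdeal m).mkQ_surjective y
    obtain ⟨z, rfl⟩ := (metIdeal m).mkQ_surjective z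
    obtain ⟨t, rfl⟩ := (metIdeal m).mkQ_surjective t
    simp only [qmul_mk]
    rw [Submodule.mkQ_apply, Submodule.Quotient.mk_eq_zero]
    exact subset_idealGen m _ ⟨x, y, z, t, rfl⟩
  have k4 : RepKer m (fifthPower m) := by
    have hI : IsIdeal m (fifthPower m) := idealGen_isIdeal m _
    refine repKer_quot h _ hI ?_
    refine class4_faithful _ (qmul_malcev m h _ _) ⟨?_, ?_, ?_⟩
    all_goals
      intro x y z t w
      obtain ⟨x, rfl⟩ := (fifthPower m).mkQ_surjective x
      obtain ⟨y, rfl⟩ := (fifthPower m).mkQ_surjective y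
      obtain ⟨z, rfl⟩ := (fifthPower m).mkQ_surjective z
      obtain ⟨t, rfl⟩ := (fifthPower m).mkQ_surjective t
      obtain ⟨w, rfl⟩ := (fifthPower m).mkQ_surjective w
      simp only [qmul_mk]
      rw [Submodule.mkQ_apply, Submodule.Quotient.mk_eq_zero]
    · exact subset_idealGen m _ ⟨x, y, z, t, w, Or.inl rfl⟩
    · exact subset_idealGen m _ ⟨x, y, z, t, w, Or.inr (Or.inl rfl)⟩
    · exact subset_idealGen m _ ⟨x, y, z, t, w, Or.inr (Or.inr rfl)⟩
  obtain ⟨V, i1, i2, ρ, hs, hk⟩ := ((k1.inf k2).inf k3).inf k4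
  rw [h0] at hk
  refine ⟨V, i1, i2, ρ, isRep_of_star h hs, ?_⟩
  rw [injective_iff_map_eq_zero]
  intro a ha
  simpa using hk a ha

end Pool.Agent.W5h64.Mal
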