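import Pool.Agent.W5h64.Crit

/-! A ten-dimensional nilpotent Malcev algebra without faithful representations. -/

set_option linter.unusedSimpArgs false
set_option linter.unusedSectionVars false

namespace Pool.Agent.W5h64.Mal

universe u v w

theorem star_of_isRep {F : Type u} {A : Type v} {V : Type w} [Field F] [CharZero F]
    [AddCommGroup A] [Module F A] [AddCommGroup V] [Module F V]
    {m : A →ₗ[F] A →ₗ[F] A} {ρ : A →ₗ[F] Module.End F V} (h : IsRep m ρ) : Star m ρ := by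
  intro x y z v
  have := congrArg Prod.snd (adjoint_star h (x, 0) (y, 0) (z, 0) (0, v))
  simpa [nullExt_apply] using this

/-- The ten-dimensional algebra with basis `e0, …, e9` and
`e0e1 = e2`, `e1e2 = e4`, `e1e3 = e5`, `e0e5 = e6`, `e1e5 = e7`, `e1e6 = e8`, `e3e4 = -e8`,
`e1e8 = e9`, `e2e7 = -e9` (the other products of basis vectors are zero up to
anticommutativity). -/
def mul10 (F : Type u) [Field F] : (Fin 10 → F) →ₗ[F] (Fin 10 → F) →ₗ[F] (Fin 10 → F) :=
  LinearMap.mk₂ F (fun p q => ![0, 0, p 0 * q 1 - p 1 * q 0, 0, p 1 * q 2 - p 2 * q 1,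
      p 1 * q 3 - p 3 * q 1, p 0 * q 5 - p 5 * q 0, p 1 * q 5 - p 5 * q 1,
      (p 1 * q 6 - p 6 * q 1) - (p 3 * q 4 - p 4 * q 3),
      (p 1 * q 8 - p 8 * q 1) - (p 2 * q 7 - p 7 * q 2)])
    (by intro p p' q; ext i; fin_cases i <;> simp <;> ring)
    (by intro c p q; ext i; fin_cases i <;> simp <;> ring)
    (by intro p q q'; ext i; fin_cases i <;> simp <;> ring)
    (by intro c p q; ext i; fin_cases i <;> simp <;> ring)

theorem mul10_malcev (F : Type u) [Field F] : IsMalcev (mul10 F) := by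
  constructor
  · intro x
    ext i
    fin_cases i <;> simp [mul10] <;> ring
  · intro x y z
    ext i
    fin_cases i <;> simp [mul10] <;> ring

section ex
variable {F : Type u} [Field F]

/-- basis vectors -/
def e (i : Fin 10) : Fin 10 → F := Pi.single i 1

theorem p0_1 : mul10 F (e 0) (e 1) = e 2 := by
  ext k; fin_cases k <;> simp [mul10, e]
theorem p0_3 : mul10 F (e 0) (e 3) = 0 := by
  ext k; fin_cases k <;> simp [mul10, e]
theorem p0_5 : mul10 F (e 0) (e 5) = e 6 := by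
  ext k; fin_cases k <;> simp [mul10, e]
theorem p0_7 : mul10 F (e 0) (e 7) = 0 := by
  ext k; fin_cases k <;> simp [mul10, e]
theorem p1_0 : mul10 F (e 1) (e 0) = - e 2 := by
  ext k; fin_cases k <;> simp [mul10, e]
theorem p1_1 : mul10 F (e 1) (e 1) = 0 := by
  ext k; fin_cases k <;> simp [mul10, e]
theorem p1_2 : mul10 F (e 1) (e 2) = e 4 := by
  ext k; fin_cases k <;> simp [mul10, e]
theorem p1_3 : mul10 F (e 1) (e 3) = e 5 := by
  ext k; fin_cases k <;> simp [mul10, e]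
theorem p1_4 : mul10 F (e 1) (e 4) = 0 := by
  ext k; fin_cases k <;> simp [mul10, e]
theorem p1_5 : mul10 F (e 1) (e 5) = e 7 := by
  ext k; fin_cases k <;> simp [mul10, e]
theorem p1_6 : mul10 F (e 1) (e 6) = e 8 := by
  ext k; fin_cases k <;> simp [mul10, e]
theorem p1_7 : mul10 F (e 1) (e 7) = 0 := by
  ext k; fin_cases k <;> simp [mul10, e]
theorem p2_1 : mul10 F (e 2) (e 1) = - e 4 := by
  ext k; fin_cases k <;> simp [mul10, e]
theorem p2_3 : mul10 F (e 2) (e 3) = 0 := by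
  ext k; fin_cases k <;> simp [mul10, e]
theorem p2_5 : mul10 F (e 2) (e 5) = 0 := by
  ext k; fin_cases k <;> simp [mul10, e]
theorem p2_7 : mul10 F (e 2) (e 7) = - e 9 := by
  ext k; fin_cases k <;> simp [mul10, e]
theorem p3_1 : mul10 F (e 3) (e 1) = - e 5 := by
  ext k; fin_cases k <;> simp [mul10, e]
theorem p3_4 : mul10 F (e 3) (e 4) = - e 8 := by
  ext k; fin_cases k <;> simp [mul10, e]
theorem p4_1 : mul10 F (e 4) (e 1) = 0 := by
  ext k; fin_cases k <;> simp [mul10, e]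
theorem p4_3 : mul10 F (e 4) (e 3) = e 8 := by
  ext k; fin_cases k <;> simp [mul10, e]
theorem p4_5 : mul10 F (e 4) (e 5) = 0 := by
  ext k; fin_cases k <;> simp [mul10, e]
theorem p5_1 : mul10 F (e 5) (e 1) = - e 7 := by
  ext k; fin_cases k <;> simp [mul10, e]
theorem p5_2 : mul10 F (e 5) (e 2) = 0 := by
  ext k; fin_cases k <;> simp [mul10, e]
theorem p5_4 : mul10 F (e 5) (e 4) = 0 := by
  ext k; fin_cases k <;> simp [mul10, e]
theorem p6_1 : mul10 F (e 6) (e 1) = - e 8 := by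
  ext k; fin_cases k <;> simp [mul10, e]
theorem p7_1 : mul10 F (e 7) (e 1) = 0 := by
  ext k; fin_cases k <;> simp [mul10, e]
theorem p7_2 : mul10 F (e 7) (e 2) = e 9 := by
  ext k; fin_cases k <;> simp [mul10, e]
theorem p8_1 : mul10 F (e 8) (e 1) = - e 9 := by
  ext k; fin_cases k <;> simp [mul10, e]

theorem mul10_e9 {V : Type w} [AddCommGroup V] [Module F V] [CharZero F]
    (ρ : (Fin 10 → F) →ₗ[F] Module.End F V) (hs : Star (mul10 F) ρ) : ρ (e 9) = 0 := by
  ext v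
  rw [LinearMap.zero_apply]
  have h0 := hs (e 5) (e 1) (e 2) v
  have h1 := congrArg (ρ (e 5)) (hs (e 1) (e 0) (e 1) v)
  have h2 := hs (e 2) (e 1) (e 5) v
  have h3 := hs (e 2) (e 1) (e 3) (ρ (e 1) v)
  have h4 := congrArg (ρ (e 2)) (hs (e 1) (e 3) (e 1) v)
  have h5 := hs (e 0) (e 7) (e 1) v
  have h6 := hs (e 1) (e 0) (e 7) v
  have h7 := hs (e 1) (e 2) (e 3) (ρ (e 1) v)
  have h8 := hs (e 0) (e 3) (e 1) (ρ (e 1) (ρ (e 1) v))
  have h9 := hs (e 0) (e 1) (e 5) (ρ (e 1) v)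
  have h10 := congrArg (ρ (e 0)) (hs (e 1) (e 1) (e 5) v)
  have h11 := hs (e 4) (e 1) (e 3) v
  have h12 := hs (e 2) (e 5) (e 1) v
  have h13 := congrArg (ρ (e 1)) (hs (e 0) (e 3) (e 1) (ρ (e 1) v))
  have h14 := hs (e 1) (e 5) (e 2) v
  have h15 := hs (e 0) (e 5) (e 1) (ρ (e 1) v)
  have h16 := hs (e 1) (e 1) (e 3) (ρ (e 0) (ρ (e 1) v))
  have h17 := hs (e 1) (e 2) (e 5) v
  have h18 := congrArg (ρ (e 3)) (hs (e 0) (e 1) (e 1) (ρ (e 1) v))
  have h19 := hs (e 1) (e 4) (e 3) v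
  have h20 := hs (e 1) (e 1) (e 6) v
  have h21 := hs (e 1) (e 0) (e 1) (ρ (e 5) v)
  have h22 := hs (e 3) (e 4) (e 1) v
  have h23 := hs (e 1) (e 3) (e 4) v
  have h24 := congrArg (ρ (e 1)) (hs (e 1) (e 0) (e 5) v)
  have h25 := congrArg (ρ (e 3)) (hs (e 1) (e 1) (e 2) v)
  have h26 := hs (e 1) (e 3) (e 1) (ρ (e 2) v)
  have h27 := congrArg (ρ (e 1)) (congrArg (ρ (e 3)) (hs (e 1) (e 0) (e 1) v))
  have h28 := hs (e 3) (e 1) (e 4) v
  have h29 := congrArg (ρ (e 1)) (hs (e 0) (e 1) (e 3) (ρ (e 1) v))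
  have h30 := congrArg (ρ (e 3)) (hs (e 1) (e 0) (e 1) (ρ (e 1) v))
  have h31 := hs (e 0) (e 1) (e 1) (ρ (e 3) (ρ (e 1) v))
  have h32 := congrArg (ρ (e 1)) (hs (e 1) (e 0) (e 3) (ρ (e 1) v))
  simp only [p0_1, p0_3, p0_5, p0_7, p1_0, p1_1, p1_2, p1_3, p1_4, p1_5, p1_6, p1_7, p2_1, p2_3, p2_5, p2_7, p3_1, p3_4, p4_1, p4_3, p4_5, p5_1, p5_2, p5_4, p6_1, p7_1, p7_2, p8_1, map_neg, map_zero, map_add, map_sub,
    LinearMap.neg_apply, LinearMap.zero_apply, neg_zero] at h0 h1 h2 h3 h4 h5 h6 h7 h8 h9 h10 h11 h12 h13 h14 h15 h16 h17 h18 h19 h20 h21 h22 h23 h24 h25 h26 h27 h28 h29 h30 h31 h32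
  linear_combination (norm := module) (-1/2 : F) • h0
    + (-1 : F) • h1
    + (-1/2 : F) • h2
    + (1/2 : F) • h3
    + (1/2 : F) • h4
    + (1/2 : F) • h5
    + (1/2 : F) • h6
    + (3/2 : F) • h7
    + (1/2 : F) • h8
    + (1/2 : F) • h9
    + (1/2 : F) • h10
    + (3/2 : F) • h11
    + (1/2 : F) • h12
    + (1/2 : F) • h13
    + (-3/2 : F) • h14
    + (1 : F) • h15
    + (1/2 : F) • h16
    + (-1 : F) • h17
    + (-1/2 : F) • h18
    + (1 : F) • h19
    + (-1/2 : F) • h20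
    + (-1/2 : F) • h21
    + (3/2 : F) • h22
    + (1/2 : F) • h23
    + (-1/2 : F) • h24
    + (-1 : F) • h25
    + (1 : F) • h26
    + (-1 : F) • h27
    + (1 : F) • h28
    + (1 : F) • h29
    + (-1/2 : F) • h30
    + (1 : F) • h31
    + (-1 : F) • h32

theorem e_apply (i j : Fin 10) : (e i : Fin 10 → F) j = if j = i then 1 else 0 := by
  simp [e, Pi.single_apply]

theorem centre10_le (z : Fin 10 → F) (hz : z ∈ centre (mul10 F)) : z = z 9 • e 9 := by
  have h1 := hz (e 1)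
  have h0 := hz (e 0)
  have h3 := hz (e 3)
  have h2 := hz (e 2)
  have a0 : z 0 = 0 := by simpa [mul10, e_apply] using congrFun h1 2
  have a2 : z 2 = 0 := by simpa [mul10, e_apply] using congrFun h1 4
  have a3 : z 3 = 0 := by simpa [mul10, e_apply] using congrFun h1 5
  have a5 : z 5 = 0 := by simpa [mul10, e_apply] using congrFun h1 7
  have a6 : z 6 = 0 := by simpa [mul10, e_apply] using congrFun h1 8
  have a8 : z 8 = 0 := by simpa [mul10, e_apply] using congrFun h1 9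
  have a1 : z 1 = 0 := by simpa [mul10, e_apply] using congrFun h0 2
  have a4 : z 4 = 0 := by simpa [mul10, e_apply] using congrFun h3 8
  have a7 : z 7 = 0 := by simpa [mul10, e_apply] using congrFun h2 9
  ext i
  fin_cases i <;> simp [e_apply, a0, a1, a2, a3, a4, a5, a6, a7, a8]

theorem e9_centre : (e 9 : Fin 10 → F) ∈ centre (mul10 F) := by
  intro x
  ext i
  fin_cases i <;> simp [mul10, e_apply]

theorem e9_jac : (e 9 : Fin 10 → F) ∈ jacIdeal (mul10 F) := by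
  have h : e 9 = Jac (mul10 F) (e 1) (e 5) (e 2) := by
    ext i
    fin_cases i <;> simp [Jac, mul10, e_apply]
  exact subset_idealGen _ _ ⟨_, _, _, h⟩

theorem e9_met : (e 9 : Fin 10 → F) ∈ metIdeal (mul10 F) := by
  have h : e 9 = mul10 F (mul10 F (e 1) (e 5)) (mul10 F (e 0) (e 1)) := by
    ext i
    fin_cases i <;> simp [mul10, e_apply]
  exact subset_idealGen _ _ ⟨_, _, _, _, h⟩

theorem e9_fifth : (e 9 : Fin 10 → F) ∈ fifthPower (mul10 F) := by
  have h : e 9 = mul10 F (mul10 F (mul10 F (mul10 F (e 3) (e 1)) (e 0)) (e 1)) (e 1) := by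
    ext i
    fin_cases i <;> simp [mul10, e_apply]
  exact subset_idealGen _ _ ⟨_, _, _, _, _, Or.inl h⟩

theorem inter10 : centre (mul10 F) ⊓ jacIdeal (mul10 F) ⊓ metIdeal (mul10 F)
    ⊓ fifthPower (mul10 F) = Submodule.span F {(e 9 : Fin 10 → F)} := by
  apply le_antisymm
  · rintro z ⟨⟨⟨hz, _⟩, _⟩, _⟩
    rw [centre10_le z hz]
    exact Submodule.smul_mem _ _ (Submodule.mem_span_singleton_self _)
  · rw [Submodule.span_singleton_le_iff_mem]
    exact ⟨⟨⟨e9_centre, e9_jac⟩, e9_met⟩, e9_fifth⟩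

theorem finrank10 : Module.finrank F ↥(centre (mul10 F) ⊓ jacIdeal (mul10 F) ⊓ metIdeal (mul10 F)
    ⊓ fifthPower (mul10 F)) = 1 := by
  rw [inter10]
  apply finrank_span_singleton
  intro h
  have := congrFun h 9
  simp [e_apply] at this

theorem six10 : SixZero (mul10 F) := by
  constructor <;> intro a b c d x y <;> ext i <;> fin_cases i <;> simp [mul10]

theorem no_faithful10 [CharZero F] {V : Type w} [AddCommGroup V] [Module F V]
    (ρ : (Fin 10 → F) →ₗ[F] Module.End F V) (h : IsRep (mul10 F) ρ) :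
    ¬ Function.Injective ρ := by
  intro hi
  have h9 := mul10_e9 ρ (star_of_isRep h)
  have : (e 9 : Fin 10 → F) = 0 := hi (by rw [h9, map_zero])
  have := congrFun this 9
  simp [e_apply] at this

end ex

end Pool.Agent.W5h64.Mal
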