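import Mathlib

/-! Malcev algebras, split null extensions and representations; the operator form of the
definition of a representation. -/

namespace Pool.Agent.W5h64.Mal

section defs

variable {F A V : Type*} [Field F] [AddCommGroup A] [Module F A] [AddCommGroup V] [Module F V]

/-- The bilinear product `m` makes the `F`-vector space `A` a Malcev algebra. -/
structure IsMalcev (m : A →ₗ[F] A →ₗ[F] A) : Prop where
  /-- anticommutativity, `x² = 0` -/
  sq : ∀ x, m x x = 0
  /-- the Malcev identity `(xy)(xz) = ((xy)z)x + ((yz)x)x + ((zx)x)y` -/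
  malcev : ∀ x y z, m (m x y) (m x z) =
    m (m (m x y) z) x + m (m (m y z) x) x + m (m (m z x) x) y

/-- The product `(a + u)(b + v) = ab + ρ(a)v - ρ(b)u` of the split null extension `A ⊕ V`. -/
def nullExt (m : A →ₗ[F] A →ₗ[F] A) (ρ : A →ₗ[F] Module.End F V) :
    (A × V) →ₗ[F] (A × V) →ₗ[F] (A × V) :=
  LinearMap.mk₂ F (fun p q => (m p.1 q.1, ρ p.1 q.2 - ρ q.1 p.2))
    (by intro p p' q; ext <;> simp; abel)
    (by intro c p q; ext <;> simp [smul_sub])
    (by intro p q q'; ext <;> simp; abel)
    (by intro c p q; ext <;> simp [smul_sub])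

/-- `ρ` is a representation of the algebra `(A, m)` on `V`: the split null extension
`A ⊕ V` is a Malcev algebra. -/
def IsRep (m : A →ₗ[F] A →ₗ[F] A) (ρ : A →ₗ[F] Module.End F V) : Prop :=
  IsMalcev (nullExt m ρ)

/-- `I` is an ideal of the anticommutative algebra `(A, m)`. -/
def IsIdeal (m : A →ₗ[F] A →ₗ[F] A) (I : Submodule F A) : Prop := ∀ x ∈ I, ∀ y, m x y ∈ I

/-- The smallest ideal containing the set `S`. -/
def idealGen (m : A →ₗ[F] A →ₗ[F] A) (S : Set A) : Submodule F A :=
  sInf {I | IsIdeal m I ∧ S ⊆ I}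

/-- The centre `{z : zA = 0}`. -/
def centre (m : A →ₗ[F] A →ₗ[F] A) : Submodule F A where
  carrier := {z | ∀ x, m z x = 0}
  zero_mem' := by intro x; simp
  add_mem' := by
    intro a b ha hb x
    rw [map_add, LinearMap.add_apply, ha, hb, add_zero]
  smul_mem' := by
    intro c a ha x
    rw [map_smul, LinearMap.smul_apply, ha, smul_zero]

/-- The Jacobian `J(x, y, z) = (xy)z + (yz)x + (zx)y`. -/
def Jac (m : A →ₗ[F] A →ₗ[F] A) (x y z : A) : A := m (m x y) z + m (m y z) x + m (m z x) y

/-- The Jacobian ideal `J(A)`. -/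
def jacIdeal (m : A →ₗ[F] A →ₗ[F] A) : Submodule F A :=
  idealGen m {w | ∃ x y z, w = Jac m x y z}

/-- The ideal generated by `A²A²`. -/
def metIdeal (m : A →ₗ[F] A →ₗ[F] A) : Submodule F A :=
  idealGen m {w | ∃ a b c d, w = m (m a b) (m c d)}

/-- The ideal `A⁵` generated by all products of five elements. -/
def fifthPower (m : A →ₗ[F] A →ₗ[F] A) : Submodule F A :=
  idealGen m {w | ∃ a b c d e, w = m (m (m (m a b) c) d) e ∨ w = m (m (m a b) (m c d)) e ∨
    w = m (m (m a b) c) (m d e)}

/-- All products of six elements vanish (up to anticommutativity these are the six shapes of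
bracketings of six letters). -/
structure SixZero (m : A →ₗ[F] A →ₗ[F] A) : Prop where
  s1 : ∀ a b c d x y, m (m (m (m (m a b) c) d) x) y = 0
  s2 : ∀ a b c d x y, m (m (m (m a b) (m c d)) x) y = 0
  s3 : ∀ a b c d x y, m (m (m (m a b) c) (m d x)) y = 0
  s4 : ∀ a b c d x y, m (m (m (m a b) c) d) (m x y) = 0
  s5 : ∀ a b c d x y, m (m (m a b) (m c d)) (m x y) = 0
  s6 : ∀ a b c d x y, m (m (m a b) c) (m (m d x) y) = 0

theorem nullExt_apply (m : A →ₗ[F] A →ₗ[F] A) (ρ : A →ₗ[F] Module.End F V) (p q : A × V) :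
    nullExt m ρ p q = (m p.1 q.1, ρ p.1 q.2 - ρ q.1 p.2) := rfl

theorem IsMalcev.swap {m : A →ₗ[F] A →ₗ[F] A} (h : IsMalcev m) (x y : A) :
    m x y = - m y x := by
  have h1 := h.sq (x + y)
  simp only [map_add, LinearMap.add_apply, h.sq, zero_add, add_zero] at h1
  exact eq_neg_of_add_eq_zero_right h1

/-- The operator identity that characterises representations. -/
def Star (m : A →ₗ[F] A →ₗ[F] A) (ρ : A →ₗ[F] Module.End F V) : Prop :=
  ∀ x y z v, ρ (m (m x y) z) v = ρ (m x z) (ρ y v) + ρ x (ρ (m y z) v)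
    - ρ y (ρ x (ρ z v)) + ρ z (ρ y (ρ x v))

theorem isRep_of_star {m : A →ₗ[F] A →ₗ[F] A} (hm : IsMalcev m) {ρ : A →ₗ[F] Module.End F V}
    (h : Star m ρ) : IsRep m ρ := by
  constructor
  · intro p
    rw [nullExt_apply, hm.sq]
    simp
  · rintro ⟨x, u⟩ ⟨y, v⟩ ⟨z, w⟩
    simp only [nullExt_apply]
    apply Prod.ext
    · simpa using hm.malcev x y z
    · simp only [Prod.snd_add, map_sub, map_add, map_neg]
      have s1 : m z x = - m x z := hm.swap z x
      have s2 : m y x = - m x y := hm.swap y x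
      have s3 : m z y = - m y z := hm.swap z y
      have sxx := hm.sq x
      -- x-component
      have a1 := h x y z u
      have a2 := h y z x u
      -- y-component
      have b1 := h z x x v
      -- z-component
      have c1 := h x y x w
      have c2 := h y x x w
      simp only [s1, s2, s3, sxx, map_neg, LinearMap.neg_apply, map_zero, LinearMap.zero_apply]
        at a1 a2 b1 c1 c2 ⊢
      linear_combination (norm := module) - a1 - a2 - b1 + c1 + c2

end defs

end Pool.Agent.W5h64.Mal
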