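import Mathlib

/-! Combinatorial core of the construction of a faithful representation of a
metabelian Malcev algebra. -/

set_option linter.unusedSectionVars false
set_option linter.unusedSimpArgs false

namespace Pool.Agent.W5h64.Metab

/-- Structure maps of a metabelian Malcev algebra `C ⊕ M`. -/
structure Dat (F C M : Type*) [Field F] [AddCommGroup C] [Module F C]
    [AddCommGroup M] [Module F M] where
  R : C →ₗ[F] M →ₗ[F] M
  β : C →ₗ[F] C →ₗ[F] M
  alt : ∀ x, β x x = 0
  cyc : ∀ x y z m, R x (R y (R z m)) = R y (R z (R x m))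
  S : ∀ x y z t, R t (R z (β x y)) + R x (R t (β y z)) + R y (R x (β z t))
    + R z (R y (β t x)) = 0

section coef
variable (F : Type*) [Field F]

def κ : ℕ → F
  | 0 => 1
  | 1 => 0
  | (n+2) => κ (n+1) + 2 * κ n

def γ : ℕ → F
  | 0 => 0
  | (n+1) => (n * γ n + κ F (n+1) - κ F n) / (n+2)

variable [CharZero F]

theorem γ_succ (n : ℕ) : ((n:F)+2) * γ F (n+1) = n * γ F n + κ F (n+1) - κ F n := by
  rw [γ]
  have : ((n:F)+2) ≠ 0 := by
    have : ((n+2 : ℕ) : F) ≠ 0 := Nat.cast_ne_zero.mpr (by omega)
    simpa using this
  field_simp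

theorem κ0 : κ F 0 = 1 := rfl
theorem κ1 : κ F 1 = 0 := rfl
theorem κ2 : κ F 2 = 2 := by simp [κ]
theorem κ3 : κ F 3 = 2 := by simp [κ]
theorem κ4 : κ F 4 = 6 := by simp [κ]; norm_num
theorem γ0 : γ F 0 = 0 := rfl
theorem γ1 : γ F 1 = -1/2 := by simp [γ, κ]
theorem γ2 : γ F 2 = 1/2 := by
  have := γ_succ F 1
  rw [γ1, κ2, κ1] at this
  norm_num at this
  linear_combination this / 3
theorem γ3 : γ F 3 = 1/4 := by
  have := γ_succ F 2
  rw [γ2, κ3, κ2] at this
  norm_num at this
  linear_combination this / 4
theorem γ4 : γ F 4 = 19/20 := by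
  have := γ_succ F 3
  rw [γ3, κ4, κ3] at this
  norm_num at this
  linear_combination this / 5
end coef

section
variable {F C M : Type*} [Field F] [CharZero F] [AddCommGroup C] [Module F C]
    [AddCommGroup M] [Module F M] (D : Dat F C M)

def E : List C → M →ₗ[F] M
  | [] => LinearMap.id
  | [a] => D.R a
  | [a, b] => (1/2 : F) • (D.R a ∘ₗ D.R b + D.R b ∘ₗ D.R a)
  | (a :: b :: c :: l) => D.R a ∘ₗ E (b :: c :: l)

@[simp] theorem E_nil (m : M) : E D [] m = m := rfl
@[simp] theorem E_one (a : C) (m : M) : E D [a] m = D.R a m := rfl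
@[simp] theorem E_two (a b : C) (m : M) :
    E D [a, b] m = (1/2 : F) • (D.R a (D.R b m) + D.R b (D.R a m)) := rfl
theorem E_cons (a : C) (l : List C) (h : 2 ≤ l.length) (m : M) :
    E D (a :: l) m = D.R a (E D l m) := by
  match l, h with
  | (b :: c :: l), _ => rfl

theorem comm4 (a b p q : C) (m : M) :
    D.R a (D.R b (D.R p (D.R q m) + D.R q (D.R p m)))
     = D.R b (D.R a (D.R p (D.R q m) + D.R q (D.R p m))) := by
  simp only [map_add]
  have h1 : D.R a (D.R b (D.R p (D.R q m))) = D.R b (D.R a (D.R q (D.R p m))) := by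
    rw [D.cyc a b p, D.cyc a q p, D.cyc q p a]
  have h2 : D.R a (D.R b (D.R q (D.R p m))) = D.R b (D.R a (D.R p (D.R q m))) := by
    rw [D.cyc a b q, D.cyc a p q, D.cyc p q a]
  rw [h1, h2, add_comm]

theorem E_comm (a b : C) : ∀ (l : List C) (_ : 2 ≤ l.length) (m : M),
    D.R a (D.R b (E D l m)) = D.R b (D.R a (E D l m))
  | [p, q], _, m => by
      rw [E_two]
      simp only [map_smul]
      rw [comm4]
  | (p :: q :: r :: l), _, m => by
      have ih := E_comm p a (q :: r :: l) (by simp) m
      rw [E_cons D p (q :: r :: l) (by simp)]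
      rw [D.cyc a b p, ← ih]
      
theorem E_R (z : C) : ∀ (l : List C) (_ : 2 ≤ l.length) (m : M),
    E D l (D.R z m) = D.R z (E D l m)
  | [p, q], _, m => by
      rw [E_two, E_two]
      simp only [map_smul, map_add]
      rw [D.cyc z p q, D.cyc z q p]
  | (p :: q :: r :: l), _, m => by
      have ih := E_R z (q :: r :: l) (by simp) m
      rw [E_cons D p (q :: r :: l) (by simp), E_cons D p (q :: r :: l) (by simp), ih,
        E_comm D p z _ (by simp)]

theorem E_perm {l l' : List C} (h : l.Perm l') (m : M) : E D l m = E D l' m := by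
  induction h with
  | nil => rfl
  | @cons x l l' h ih =>
    match l, l', h.length_eq, ih with
    | [], [], _, _ => rfl
    | [a], [b], _, _ =>
      have : a = b := by simpa using h
      rw [this]
    | (a :: b :: l), (a' :: b' :: l'), _, ih =>
      rw [E_cons D x _ (by simp), E_cons D x _ (by simp), ih]
  | swap x y l =>
    match l with
    | [] => rw [E_two, E_two, add_comm]
    | [a] =>
      rw [E_cons D y [x, a] (by simp), E_cons D x [y, a] (by simp), E_two, E_two]
      simp only [map_smul, map_add]
      rw [D.cyc y x a, ← D.cyc x y a, add_comm]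
    | (a :: b :: l) =>
      rw [E_cons D y (x :: a :: b :: l) (by simp), E_cons D x (a :: b :: l) (by simp),
        E_cons D x (y :: a :: b :: l) (by simp), E_cons D y (a :: b :: l) (by simp),
        E_comm D _ _ _ (by simp)]
  | trans _ _ ih1 ih2 => rw [ih1, ih2]

theorem E_add (a b : C) : ∀ (l : List C) (m : M),
    E D ((a + b) :: l) m = E D (a :: l) m + E D (b :: l) m
  | [], m => by simp
  | [p], m => by
      simp only [E_two, map_add, LinearMap.add_apply]
      module
  | (p :: q :: l), m => by
      rw [E_cons D _ (p :: q :: l) (by simp), E_cons D _ (p :: q :: l) (by simp),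
        E_cons D _ (p :: q :: l) (by simp)]
      simp

theorem E_smul (c : F) (a : C) : ∀ (l : List C) (m : M),
    E D ((c • a) :: l) m = c • E D (a :: l) m
  | [], m => by simp
  | [p], m => by
      simp only [E_two, map_smul, LinearMap.smul_apply]
      module
  | (p :: q :: l), m => by
      rw [E_cons D _ (p :: q :: l) (by simp), E_cons D _ (p :: q :: l) (by simp)]
      simp

/-- `B a l` is the symmetrisation of `R ⋯ R β(a, w)`. -/
def B (a : C) : List C → M
  | [] => 0
  | [y] => D.β a y
  | [x, y] => D.R x (D.β a y) + D.R y (D.β a x)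
  | [x, y, z] => E D [y, z] (D.β a x) + E D [x, z] (D.β a y) + E D [x, y] (D.β a z)
  | (w :: x :: y :: z :: l) => E D (x :: y :: z :: l) (D.β a w) + D.R w (B a (x :: y :: z :: l))

@[simp] theorem B_nil (a : C) : B D a [] = 0 := rfl
@[simp] theorem B_one (a y : C) : B D a [y] = D.β a y := rfl
@[simp] theorem B_two (a x y : C) :
    B D a [x, y] = D.R x (D.β a y) + D.R y (D.β a x) := rfl
@[simp] theorem B_three (a x y z : C) :
    B D a [x, y, z] = E D [y, z] (D.β a x) + E D [x, z] (D.β a y) + E D [x, y] (D.β a z) := rfl
theorem B_cons (a w : C) (l : List C) (h : 3 ≤ l.length) :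
    B D a (w :: l) = E D l (D.β a w) + D.R w (B D a l) := by
  match l, h with
  | (x :: y :: z :: l), _ => rfl

theorem B_comm (c a b : C) : ∀ (l : List C) (_ : 3 ≤ l.length),
    D.R a (D.R b (B D c l)) = D.R b (D.R a (B D c l))
  | [p, q, r], _ => by
      rw [B_three]
      simp only [map_add]
      rw [E_comm D a b [q, r] (by simp), E_comm D a b [p, r] (by simp),
        E_comm D a b [p, q] (by simp)]
  | (p :: q :: r :: s :: l), _ => by
      have ih := B_comm c p a (q :: r :: s :: l) (by simp)
      rw [B_cons D c p (q :: r :: s :: l) (by simp)]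
      simp only [map_add]
      rw [D.cyc a b p, ← ih, E_comm D a b _ (by simp)]

theorem B_perm (c : C) {l l' : List C} (h : l.Perm l') : B D c l = B D c l' := by
  induction h with
  | nil => rfl
  | @cons x l l' h ih =>
    match l, l', h.length_eq, ih, h with
    | [], [], _, _, _ => rfl
    | [a], [b], _, _, h =>
      have : a = b := by simpa using h
      rw [this]
    | [a, b], [a', b'], _, ih, h =>
      rw [B_three, B_three, E_perm D h]
      have ih' := ih
      rw [B_two, B_two] at ih'
      have h2 : (a = a' ∧ b = b') ∨ (a = b' ∧ b = a') := by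
        have hm : a ∈ [a', b'] := h.mem_iff.mp (by simp)
        simp only [List.mem_cons, List.not_mem_nil, or_false] at hm
        rcases hm with rfl | rfl
        · left
          have h3 : [b].Perm [b'] := (List.perm_cons a).mp h
          exact ⟨rfl, by simpa using h3⟩
        · right
          have h3 : [a, b].Perm [a, a'] := h.trans (List.Perm.swap _ _ _)
          have h4 : [b].Perm [a'] := (List.perm_cons a).mp h3
          exact ⟨rfl, by simpa using h4⟩
      rcases h2 with ⟨rfl, rfl⟩ | ⟨rfl, rfl⟩
      · rfl
      · abel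
    | (a :: b :: d :: l), (a' :: b' :: d' :: l'), _, ih, h =>
      rw [B_cons D c x (a :: b :: d :: l) (by simp),
        B_cons D c x (a' :: b' :: d' :: l') (by simp), ih, E_perm D h]
  | swap x y l =>
    match l with
    | [] => rw [B_two, B_two, add_comm]
    | [a] =>
      rw [B_three, B_three, E_perm D (List.Perm.swap x y [])]
      abel
    | [a, b] =>
      rw [B_cons D c y [x, a, b] (by simp), B_cons D c x [y, a, b] (by simp), B_three, B_three]
      simp only [map_add]
      rw [← E_cons D x [a, b] (by simp), ← E_cons D y [a, b] (by simp),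
        ← E_cons D y [x, b] (by simp), ← E_cons D y [x, a] (by simp),
        ← E_cons D x [y, b] (by simp), ← E_cons D x [y, a] (by simp),
        E_perm D (List.Perm.swap x y [b]), E_perm D (List.Perm.swap x y [a])]
      abel
    | (a :: b :: d :: l) =>
      rw [B_cons D c y (x :: a :: b :: d :: l) (by simp),
        B_cons D c x (a :: b :: d :: l) (by simp),
        B_cons D c x (y :: a :: b :: d :: l) (by simp),
        B_cons D c y (a :: b :: d :: l) (by simp)]
      simp only [map_add]
      rw [← E_cons D x (a :: b :: d :: l) (by simp), ← E_cons D y (a :: b :: d :: l) (by simp),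
        B_comm D c x y _ (by simp)]
      abel
  | trans _ _ ih1 ih2 => rw [ih1, ih2]

theorem B_add (c a b : C) (l : List C) :
    B D c ((a + b) :: l) = B D c (a :: l) + B D c (b :: l) := by
  match l with
  | [] => simp
  | [p] => simp only [B_two, map_add, LinearMap.add_apply]; abel
  | [p, q] =>
    simp only [B_three, map_add, E_add]; abel
  | (p :: q :: r :: l) =>
    rw [B_cons D c _ (p :: q :: r :: l) (by simp), B_cons D c _ (p :: q :: r :: l) (by simp),
      B_cons D c _ (p :: q :: r :: l) (by simp)]
    simp only [map_add, LinearMap.add_apply]; abel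

theorem B_smul (c : C) (t : F) (a : C) (l : List C) :
    B D c ((t • a) :: l) = t • B D c (a :: l) := by
  match l with
  | [] => simp
  | [p] => simp only [B_two, map_smul, LinearMap.smul_apply, smul_add]
  | [p, q] =>
    simp only [B_three, map_smul, E_smul, smul_add]
  | (p :: q :: r :: l) =>
    rw [B_cons D c _ (p :: q :: r :: l) (by simp), B_cons D c _ (p :: q :: r :: l) (by simp)]
    simp only [map_smul, LinearMap.smul_apply, smul_add]

theorem B_add' (c d : C) : ∀ (l : List C), B D (c + d) l = B D c l + B D d l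
  | [] => by simp
  | [p] => by simp
  | [p, q] => by simp only [B_two, map_add, LinearMap.add_apply]; abel
  | [p, q, r] => by simp only [B_three, map_add, LinearMap.add_apply]; abel
  | (p :: q :: r :: s :: l) => by
      rw [B_cons D _ p (q :: r :: s :: l) (by simp), B_cons D _ p (q :: r :: s :: l) (by simp),
        B_cons D _ p (q :: r :: s :: l) (by simp), B_add' c d (q :: r :: s :: l)]
      simp only [map_add, LinearMap.add_apply]; abel

theorem B_smul' (t : F) (c : C) : ∀ (l : List C), B D (t • c) l = t • B D c l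
  | [] => by simp
  | [p] => by simp
  | [p, q] => by simp only [B_two, map_smul, LinearMap.smul_apply, smul_add]
  | [p, q, r] => by simp only [B_three, map_smul, LinearMap.smul_apply, smul_add]
  | (p :: q :: r :: s :: l) => by
      rw [B_cons D _ p (q :: r :: s :: l) (by simp), B_cons D _ p (q :: r :: s :: l) (by simp),
        B_smul' t c (q :: r :: s :: l)]
      simp only [map_smul, LinearMap.smul_apply, smul_add]

theorem beta_swap (x y : C) : D.β x y = - D.β y x := by
  have h := D.alt (x + y)
  simp only [map_add, LinearMap.add_apply, D.alt, zero_add, add_zero] at h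
  exact eq_neg_of_add_eq_zero_right h

/-- Applying a symmetrised word of length at least two to the relation `S`. -/
theorem ES (x y z w : C) (l : List C) (h : 2 ≤ l.length) :
    D.R w (D.R z (E D l (D.β x y))) + D.R x (D.R w (E D l (D.β y z)))
      + D.R y (D.R x (E D l (D.β z w))) + D.R z (D.R y (E D l (D.β w x))) = 0 := by
  have h0 := congrArg (E D l) (D.S x y z w)
  simp only [map_add, map_zero, E_R D _ l h] at h0
  exact h0

theorem Q0 (x y z w : C) (l : List C) (h : 2 ≤ l.length) :
    D.R w (D.R x (E D l (D.β y z))) - D.R w (D.R y (E D l (D.β x z)))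
      + D.R w (D.R z (E D l (D.β x y))) = 0 := by
  have h1 := ES D x y z w l h
  have h2 := ES D y x z w l h
  have h3 := ES D x z y w l h
  have e1 := E_comm D x w l h (D.β y z)
  have e2 := E_comm D y x l h (D.β z w)
  have e3 := E_comm D z y l h (D.β x w)
  have e4 := E_comm D y w l h (D.β x z)
  simp only [beta_swap D y x, beta_swap D z y, beta_swap D w x, beta_swap D w y,
    beta_swap D w z, map_neg] at h1 h2 h3
  linear_combination (norm := module) (1/2 : F) • h1 - (1/2 : F) • h2 - (1/2 : F) • h3 - e1
    - (1/2 : F) • e2 + (1/2 : F) • e3 + (1/2 : F) • e4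

theorem Q (x y z : C) : ∀ (l : List C) (_ : 3 ≤ l.length),
    D.R x (E D l (D.β y z)) - D.R y (E D l (D.β x z)) + D.R z (E D l (D.β x y)) = 0
  | (w :: a :: b :: l), _ => by
    have h := Q0 D x y z w (a :: b :: l) (by simp)
    have e1 := E_comm D x w (a :: b :: l) (by simp) (D.β y z)
    have e2 := E_comm D y w (a :: b :: l) (by simp) (D.β x z)
    have e3 := E_comm D z w (a :: b :: l) (by simp) (D.β x y)
    rw [E_cons D w _ (by simp), E_cons D w _ (by simp), E_cons D w _ (by simp)]
    linear_combination (norm := module) h + e1 - e2 + e3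

theorem P0 (x y z w : C) (l : List C) (h : 2 ≤ l.length) :
    D.R x (D.R y (E D l (D.β z w))) - D.R y (D.R z (E D l (D.β x w)))
      = - D.R y (D.R w (E D l (D.β x z))) := by
  have h0 := Q0 D x y z w l h
  have h1 := ES D x y z w l h
  have e1 := E_comm D x w l h (D.β y z)
  have e2 := E_comm D y x l h (D.β z w)
  have e3 := E_comm D z y l h (D.β x w)
  have e4 := E_comm D y w l h (D.β x z)
  simp only [beta_swap D w x, map_neg] at h1
  linear_combination (norm := module) h1 - h0 - e1 - e2 + e3 + e4

theorem P (x y z : C) : ∀ (l : List C) (_ : 3 ≤ l.length),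
    D.R x (D.R y (B D z l)) - D.R y (D.R z (B D x l))
      = - (l.length : F) • D.R y (E D l (D.β x z))
  | [p, q, r], _ => by
    have h1 := P0 D x y z p [q, r] (by simp)
    have h2 := P0 D x y z q [p, r] (by simp)
    have h3 := P0 D x y z r [p, q] (by simp)
    rw [← E_cons D p [q, r] (by simp)] at h1
    rw [← E_cons D q [p, r] (by simp), E_perm D (List.Perm.swap p q [r])] at h2
    rw [← E_cons D r [p, q] (by simp)] at h3
    have h4 : E D [r, p, q] (D.β x z) = E D [p, q, r] (D.β x z) := by
      apply E_perm D
      exact (List.perm_append_comm (l₁ := [r]) (l₂ := [p, q]))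
    rw [h4] at h3
    rw [B_three, B_three]
    simp only [map_add, List.length_cons, List.length_nil]
    push_cast
    linear_combination (norm := module) h1 + h2 + h3
  | (w :: a :: b :: c :: l), _ => by
    have ih := P x y z (a :: b :: c :: l) (by simp)
    have h1 := P0 D x y z w (a :: b :: c :: l) (by simp)
    rw [B_cons D z w _ (by simp), B_cons D x w _ (by simp), E_cons D w _ (by simp)]
    simp only [map_add]
    have ih' := congrArg (D.R w) ih
    simp only [map_sub, map_smul, map_neg] at ih'
    rw [D.cyc w x y, D.cyc w y z] at ih'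
    have e2 := E_comm D w y (a :: b :: c :: l) (by simp) (D.β x z)
    rw [List.length_cons]
    push_cast
    rw [← D.cyc w x y, ← D.cyc w y z] at ih'
    have c1 := D.cyc x y w (B D z (a :: b :: c :: l))
    have c2 := D.cyc y z w (B D x (a :: b :: c :: l))
    have c3 := D.cyc w x y (B D z (a :: b :: c :: l))
    have c4 := D.cyc w y z (B D x (a :: b :: c :: l))
    linear_combination (norm := module) h1 + ih' - c3 + c4 - ((a :: b :: c :: l).length : F) • e2

/-- action of `M` on list basis vectors -/
def fu (u : M) (l : List C) : M := κ F l.length • E D l u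
/-- action of `C` on list basis vectors, component in `M` -/
def fa (a : C) (l : List C) : M := γ F l.length • B D a l

theorem r1 (n : ℕ) : κ F n - κ F (n+1) + ((n:F)+2) * γ F (n+1) - n * γ F n = 0 := by
  have := γ_succ F n
  linear_combination this

theorem r2 (n : ℕ) : κ F n + κ F (n+1) - ((n:F)+3) * γ F (n+2) - γ F (n+1) + n * γ F n = 0 := by
  have h1 := γ_succ F n
  have h2 := γ_succ F (n+1)
  have h3 : κ F (n+2) = κ F (n+1) + 2 * κ F n := rfl
  push_cast at h2
  linear_combination -h1 - h2 - h3

theorem C1_ge3 (x y z : C) (l : List C) (h : 3 ≤ l.length) :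
    fu D (D.R z (D.β x y)) l + D.R y (fu D (D.β x z) l) + fu D (D.β y z) (x :: l)
      + fa D z (x :: y :: l) + D.R z (fa D x (y :: l)) + D.R z (D.R x (fa D y l))
    = fa D x (y :: z :: l) + D.R x (fa D y (z :: l)) + D.R x (D.R y (fa D z l)) := by
  simp only [fu, fa, List.length_cons]
  rw [E_R D _ l (by omega), E_cons D x l (by omega),
    B_cons D z x (y :: l) (by simp; omega), B_cons D z y l h,
    B_cons D x y l h, B_cons D x y (z :: l) (by simp; omega), B_cons D x z l h,
    B_cons D y z l h, E_cons D y l (by omega), E_cons D z l (by omega)]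
  have hQ := Q D x y z l h
  have hP1 := P D x y z l h
  have hP2 := P D y z x l h
  have c1 := B_comm D x y z l h
  have c2 := B_comm D y z x l h
  have s1 := r1 (F := F) l.length
  have s2 := r2 (F := F) l.length
  simp only [beta_swap D y x, beta_swap D z x, beta_swap D z y, map_neg, map_add, map_smul,
    smul_neg] at hP2 hP1 ⊢
  linear_combination (norm := module)
    (κ F (l.length+1) - γ F (l.length+2) - γ F (l.length+1)) • hQ
    + (γ F (l.length+2) - γ F l.length) • hP1
    + (γ F (l.length+1) - γ F l.length) • hP2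
    + s2 • D.R y (E D l (D.β x z)) + s1 • D.R z (E D l (D.β x y))
    - γ F (l.length+1) • c1 + γ F (l.length+1) • c2

theorem C1_0 (x y z : C) :
    fu D (D.R z (D.β x y)) [] + D.R y (fu D (D.β x z) []) + fu D (D.β y z) (x :: [])
      + fa D z (x :: y :: []) + D.R z (fa D x (y :: [])) + D.R z (D.R x (fa D y []))
    = fa D x (y :: z :: []) + D.R x (fa D y (z :: [])) + D.R x (D.R y (fa D z [])) := by
  simp only [fu, fa, List.length_cons, List.length_nil, zero_add, Nat.reduceAdd, κ0, κ1, κ2, κ3, γ0, γ1, γ2, γ3, γ4]
  simp only [E_two, E_one, E_nil, B_three, B_two, B_one, B_nil, map_add, map_smul, map_neg, map_zero, smul_neg, beta_swap D y x, beta_swap D z x, beta_swap D z y]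
  module

theorem C1_1 (x y z p : C) :
    fu D (D.R z (D.β x y)) [p] + D.R y (fu D (D.β x z) [p]) + fu D (D.β y z) (x :: [p])
      + fa D z (x :: y :: [p]) + D.R z (fa D x (y :: [p])) + D.R z (D.R x (fa D y [p]))
    = fa D x (y :: z :: [p]) + D.R x (fa D y (z :: [p])) + D.R x (D.R y (fa D z [p])) := by
  have h0 := D.S x y z p
  have h1 := D.S x z y p
  have h2 := D.S x y p z
  have h3 := D.S x z p y
  have h4 := D.S x p y z
  simp only [beta_swap D y x, beta_swap D z x, beta_swap D p x, beta_swap D z y, beta_swap D p y, beta_swap D p z, map_neg, map_add, smul_neg, map_zero] at h0 h1 h2 h3 h4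
  simp only [fu, fa, List.length_cons, List.length_nil, zero_add, Nat.reduceAdd, κ0, κ1, κ2, κ3, γ0, γ1, γ2, γ3, γ4]
  simp only [E_two, E_one, E_nil, B_three, B_two, B_one, B_nil, map_add, map_smul, map_neg, map_zero, smul_neg, beta_swap D y x, beta_swap D z x, beta_swap D p x, beta_swap D z y, beta_swap D p y, beta_swap D p z]
  linear_combination (norm := module) (1/2 : F) • h0
    + (1/8 : F) • h1
    + (3/8 : F) • h2
    + (5/8 : F) • h3
    + (7/8 : F) • h4

theorem C1_2 (x y z p q : C) :
    fu D (D.R z (D.β x y)) [p, q] + D.R y (fu D (D.β x z) [p, q]) + fu D (D.β y z) (x :: [p, q])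
      + fa D z (x :: y :: [p, q]) + D.R z (fa D x (y :: [p, q])) + D.R z (D.R x (fa D y [p, q]))
    = fa D x (y :: z :: [p, q]) + D.R x (fa D y (z :: [p, q])) + D.R x (D.R y (fa D z [p, q])) := by
  have h0 := congrArg (D.R z) (D.S x y q p)
  have h1 := congrArg (D.R z) (D.S x y p q)
  have h2 := D.cyc y z q (D.β x p)
  have h3 := D.cyc z y p (D.β x q)
  have h4 := D.cyc z y q (D.β x p)
  have h5 := D.cyc p q y (D.β x z)
  have h6 := congrArg (D.R q) (D.S x p y z)
  have h7 := D.cyc z p q (D.β x y)
  have h8 := D.cyc p z q (D.β x y)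
  have h9 := congrArg (D.R p) (D.S x y q z)
  have h10 := congrArg (D.R p) (D.S x y z q)
  have h11 := D.cyc z q p (D.β x y)
  have h12 := D.cyc y z p (D.β x q)
  have h13 := D.cyc y p q (D.β x z)
  have h14 := D.cyc p y q (D.β x z)
  have h15 := D.cyc z p y (D.β x q)
  have h16 := D.cyc z q y (D.β x p)
  have h17 := congrArg (D.R q) (D.S x z y p)
  have h18 := D.cyc p q z (D.β x y)
  have h19 := congrArg (D.R q) (D.S x y p z)
  have h20 := congrArg (D.R q) (D.S x y z p)
  have h21 := congrArg (D.R p) (D.S x z y q)
  have h22 := congrArg (D.R p) (D.S x q y z)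
  have h23 := congrArg (D.R x) (D.S y p z q)
  have h24 := congrArg (D.R x) (D.S y z q p)
  have h25 := congrArg (D.R x) (D.S y z p q)
  have h26 := congrArg (D.R x) (D.S y q z p)
  have h27 := D.cyc x q z (D.β y p)
  have h28 := D.cyc x z p (D.β y q)
  have h29 := D.cyc x z q (D.β y p)
  have h30 := congrArg (D.R z) (D.S x p y q)
  have h31 := congrArg (D.R z) (D.S x q y p)
  have h32 := D.cyc p x q (D.β y z)
  have h33 := D.cyc x p q (D.β y z)
  have h34 := D.cyc x q p (D.β y z)
  have h35 := D.cyc x p z (D.β y q)
  simp only [beta_swap D y x, beta_swap D z x, beta_swap D p x, beta_swap D q x, beta_swap D z y, beta_swap D p y, beta_swap D q y, beta_swap D p z, beta_swap D q z, beta_swap D q p, map_neg, map_add, smul_neg, map_zero] at h0 h1 h2 h3 h4 h5 h6 h7 h8 h9 h10 h11 h12 h13 h14 h15 h16 h17 h18 h19 h20 h21 h22 h23 h24 h25 h26 h27 h28 h29 h30 h31 h32 h33 h34 h35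
  simp only [fu, fa, List.length_cons, List.length_nil, zero_add, Nat.reduceAdd, κ0, κ1, κ2, κ3, γ0, γ1, γ2, γ3, γ4]
  rw [B_cons D z x [y, p, q] (by simp), B_cons D x y [z, p, q] (by simp), E_cons D x [p, q] (by simp),
    E_cons D y [p, q] (by simp), E_cons D z [p, q] (by simp)]
  simp only [E_two, E_one, E_nil, B_three, B_two, B_one, B_nil, map_add, map_smul, map_neg, map_zero, smul_neg, beta_swap D y x, beta_swap D z x, beta_swap D p x, beta_swap D q x, beta_swap D z y, beta_swap D p y, beta_swap D q y, beta_swap D p z, beta_swap D q z, beta_swap D q p]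
  linear_combination (norm := module) (17/20 : F) • h0
    + (17/20 : F) • h1
    + (-19/40 : F) • h2
    + (19/40 : F) • h3
    + (19/40 : F) • h4
    + (3/20 : F) • h5
    + (-3/20 : F) • h6
    + (-6/5 : F) • h7
    + (1/20 : F) • h8
    + (-1/20 : F) • h9
    + (-1/20 : F) • h10
    + (-23/20 : F) • h11
    + (-19/40 : F) • h12
    + (1/20 : F) • h13
    + (-1/20 : F) • h14
    + (3/20 : F) • h15
    + (3/20 : F) • h16
    + (-3/20 : F) • h17
    + (-3/20 : F) • h18
    + (-3/20 : F) • h19
    + (-3/20 : F) • h20
    + (-3/20 : F) • h21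
    + (-1/20 : F) • h22
    + (19/40 : F) • h23
    + (9/20 : F) • h24
    + (9/20 : F) • h25
    + (19/40 : F) • h26
    + (-3/20 : F) • h27
    + (7/20 : F) • h28
    + (7/20 : F) • h29
    + (7/20 : F) • h30
    + (7/20 : F) • h31
    + (-1/10 : F) • h32
    + (-1/20 : F) • h33
    + (-3/20 : F) • h34
    + (-3/20 : F) • h35


theorem C1 (x y z : C) (l : List C) :
    fu D (D.R z (D.β x y)) l + D.R y (fu D (D.β x z) l) + fu D (D.β y z) (x :: l)
      + fa D z (x :: y :: l) + D.R z (fa D x (y :: l)) + D.R z (D.R x (fa D y l))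
    = fa D x (y :: z :: l) + D.R x (fa D y (z :: l)) + D.R x (D.R y (fa D z l)) := by
  match l with
  | [] => exact C1_0 D x y z
  | [p] => exact C1_1 D x y z p
  | [p, q] => exact C1_2 D x y z p q
  | (p :: q :: r :: l) => exact C1_ge3 D x y z (p :: q :: r :: l) (by simp)

/-- first slot in `M` -/
theorem C2a (u : M) (y z : C) (l : List C) :
    fu D (D.R z (D.R y u)) l + D.R y (fu D (D.R z u) l) + D.R z (fu D u (y :: l))
      = fu D u (y :: z :: l) := by
  match l with
  | [] =>
    simp only [fu, List.length_cons, List.length_nil, zero_add, Nat.reduceAdd, κ0, κ1, κ2,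
      E_two, E_one, E_nil, map_smul, map_add]
    module
  | [p] =>
    simp only [fu, List.length_cons, List.length_nil, zero_add, Nat.reduceAdd, κ0, κ1, κ2, κ3]
    rw [E_cons D y [z, p] (by simp)]
    simp only [E_two, E_one, map_smul, map_add]
    have h1 := D.cyc z y p u
    have h2 := D.cyc y z p u
    have h3 := D.cyc z p y u
    have h4 := D.cyc y p z u
    linear_combination (norm := module) h1 - h2 + (0:F) • h3 + (0:F) • h4
  | (p :: q :: l) =>
    have hl : 2 ≤ (p :: q :: l).length := by simp
    generalize hL : (p :: q :: l) = L at hl ⊢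
    simp only [fu, List.length_cons]
    rw [E_R D _ L hl, E_R D _ L hl, E_R D _ L hl, E_cons D y (z :: L) (by simp; omega),
      E_cons D y L hl, E_cons D z L hl]
    have e := E_comm D y z L hl u
    have k : κ F (L.length + 1 + 1) = κ F (L.length+1) + 2 * κ F L.length := rfl
    rw [k]
    simp only [map_smul]
    linear_combination (norm := module) (- κ F L.length - κ F (L.length+1)) • e

/-- second slot in `M` -/
theorem C2b (u : M) (x z : C) (l : List C) :
    fu D (D.R z (D.R x u)) l + D.R x (fu D u (z :: l))
      = fu D (D.R z u) (x :: l) + D.R z (D.R x (fu D u l)) := by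
  match l with
  | [] =>
    simp only [fu, List.length_cons, List.length_nil, zero_add, Nat.reduceAdd, κ0, κ1, κ2,
      E_two, E_one, E_nil, map_smul, map_add]
    module
  | [p] =>
    simp only [fu, List.length_cons, List.length_nil, zero_add, Nat.reduceAdd, κ0, κ1, κ2, κ3]
    simp only [E_two, E_one, map_smul, map_add]
    have h1 := D.cyc x p z u
    have h4 := D.cyc x z p u
    have h5 := D.cyc z p x u
    have h6 := D.cyc z x p u
    linear_combination (norm := module) h4 + h5
  | (p :: q :: l) =>
    have hl : 2 ≤ (p :: q :: l).length := by simp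
    generalize hL : (p :: q :: l) = L at hl ⊢
    simp only [fu, List.length_cons]
    rw [E_R D _ L hl, E_R D _ L hl, E_cons D z L hl, E_cons D x L hl, E_R D _ L hl]
    have e := E_comm D x z L hl u
    simp only [map_smul]
    linear_combination (norm := module) (0 : F) • e

/-- third slot in `M` -/
theorem C2c (u : M) (x y : C) (l : List C) :
    D.R y (fu D (D.R x u) l) + fu D (D.R y u) (x :: l) + D.R x (D.R y (fu D u l))
      = fu D u (x :: y :: l) := by
  match l with
  | [] =>
    simp only [fu, List.length_cons, List.length_nil, zero_add, Nat.reduceAdd, κ0, κ1, κ2,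
      E_two, E_one, E_nil, map_smul, map_add]
    module
  | [p] =>
    simp only [fu, List.length_cons, List.length_nil, zero_add, Nat.reduceAdd, κ0, κ1, κ2, κ3]
    rw [E_cons D x [y, p] (by simp)]
    simp only [E_two, E_one, map_smul, map_add]
    have h1 := D.cyc x y p u
    have h2 := D.cyc y p x u
    linear_combination (norm := module) - h1 - h2
  | (p :: q :: l) =>
    have hl : 2 ≤ (p :: q :: l).length := by simp
    generalize hL : (p :: q :: l) = L at hl ⊢
    simp only [fu, List.length_cons]
    rw [E_R D _ L hl, E_cons D x L hl, E_R D _ L hl, E_cons D x (y :: L) (by simp; omega),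
      E_cons D y L hl]
    have e := E_comm D x y L hl u
    have k : κ F (L.length + 1 + 1) = κ F (L.length+1) + 2 * κ F L.length := rfl
    rw [k]
    simp only [map_smul]
    linear_combination (norm := module) (- κ F L.length) • e

/-- The total coefficient function: value in `M` of `a + u` on the list vector `l`. -/
def ff (a : C) (u : M) (l : List C) : M := fa D a l + fu D u l

theorem fu_perm (u : M) {l l' : List C} (h : l.Perm l') : fu D u l = fu D u l' := by
  rw [fu, fu, h.length_eq, E_perm D h]

theorem fa_perm (a : C) {l l' : List C} (h : l.Perm l') : fa D a l = fa D a l' := by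
  rw [fa, fa, h.length_eq, B_perm D a h]

theorem fu_cons_add (u : M) (a b : C) (l : List C) :
    fu D u ((a + b) :: l) = fu D u (a :: l) + fu D u (b :: l) := by
  simp only [fu, List.length_cons, E_add, smul_add]

theorem fu_cons_smul (u : M) (t : F) (a : C) (l : List C) :
    fu D u ((t • a) :: l) = t • fu D u (a :: l) := by
  simp only [fu, List.length_cons, E_smul]
  rw [smul_comm]

theorem fa_cons_add (c : C) (a b : C) (l : List C) :
    fa D c ((a + b) :: l) = fa D c (a :: l) + fa D c (b :: l) := by
  simp only [fa, List.length_cons, B_add, smul_add]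

theorem fa_cons_smul (c : C) (t : F) (a : C) (l : List C) :
    fa D c ((t • a) :: l) = t • fa D c (a :: l) := by
  simp only [fa, List.length_cons, B_smul]
  rw [smul_comm]

theorem fu_add (u v : M) (l : List C) : fu D (u + v) l = fu D u l + fu D v l := by
  simp only [fu, map_add, smul_add]

theorem fu_smul (t : F) (u : M) (l : List C) : fu D (t • u) l = t • fu D u l := by
  simp only [fu, map_smul]
  rw [smul_comm]

theorem fa_add (u v : C) (l : List C) : fa D (u + v) l = fa D u l + fa D v l := by
  simp only [fa, B_add', smul_add]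

theorem fa_smul (t : F) (u : C) (l : List C) : fa D (t • u) l = t • fa D u l := by
  simp only [fa, B_smul']
  rw [smul_comm]

end

/-! ## The module -/

section module

variable (F C : Type*) [Field F] [AddCommGroup C] [Module F C]

/-- Symmetric, multilinear functions on lists of vectors. -/
def W : Submodule F (List C → F) where
  carrier := {φ | (∀ l l' : List C, l.Perm l' → φ l = φ l') ∧
    (∀ (a b : C) (l : List C), φ ((a + b) :: l) = φ (a :: l) + φ (b :: l)) ∧
    (∀ (t : F) (a : C) (l : List C), φ ((t • a) :: l) = t * φ (a :: l))}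
  zero_mem' := by simp
  add_mem' := by
    rintro φ ψ ⟨h1, h2, h3⟩ ⟨k1, k2, k3⟩
    refine ⟨fun l l' h => ?_, fun a b l => ?_, fun t a l => ?_⟩
    · simp only [Pi.add_apply, h1 l l' h, k1 l l' h]
    · simp only [Pi.add_apply, h2, k2]; ring
    · simp only [Pi.add_apply, h3, k3]; ring
  smul_mem' := by
    rintro c φ ⟨h1, h2, h3⟩
    refine ⟨fun l l' h => ?_, fun a b l => ?_, fun t a l => ?_⟩
    · simp only [Pi.smul_apply, h1 l l' h]
    · simp only [Pi.smul_apply, h2, smul_add]
    · simp only [Pi.smul_apply, h3, smul_eq_mul]; ring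

end module

section rep

variable {F C M : Type*} [Field F] [CharZero F] [AddCommGroup C] [Module F C]
    [AddCommGroup M] [Module F M] (D : Dat F C M)

/-- the operator of `a + u` on `W × M*`. -/
def op (a : C) (u : M) :
    (W F C × Module.Dual F M) →ₗ[F] (W F C × Module.Dual F M) where
  toFun p := (⟨fun l => - p.1.1 (a :: l) - p.2 (fa D a l + fu D u l), by
      obtain ⟨⟨φ, h1, h2, h3⟩, ξ⟩ := p
      refine ⟨fun l l' h => ?_, fun b c l => ?_, fun t b l => ?_⟩
      · simp only
        rw [h1 _ _ (List.Perm.cons a h), fa_perm D a h, fu_perm D u h]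
      · simp only
        rw [h1 _ _ (List.Perm.swap (b+c) a l), h2, fa_cons_add, fu_cons_add,
          h1 _ _ (List.Perm.swap b a l), h1 _ _ (List.Perm.swap c a l)]
        simp only [map_add]; ring
      · simp only
        rw [h1 _ _ (List.Perm.swap (t • b) a l), h3, fa_cons_smul, fu_cons_smul,
          h1 _ _ (List.Perm.swap b a l)]
        simp only [map_add, map_smul, smul_eq_mul]; ring⟩,
    - (p.2 ∘ₗ D.R a))
  map_add' p q := by
    ext <;> simp <;> ring
  map_smul' c p := by
    ext <;> simp <;> ring

theorem op_fst (a : C) (u : M) (p : W F C × Module.Dual F M) (l : List C) :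
    (op D a u p).1.1 l = - p.1.1 (a :: l) - p.2 (fa D a l + fu D u l) := rfl

theorem op_snd (a : C) (u : M) (p : W F C × Module.Dual F M) (m : M) :
    (op D a u p).2 m = - p.2 (D.R a m) := rfl

theorem W_zero (φ : W F C) (l : List C) : φ.1 ((0 : C) :: l) = 0 := by
  have := φ.2.2.2 0 0 l
  simpa using this

theorem W_perm (φ : W F C) {l l' : List C} (h : l.Perm l') : φ.1 l = φ.1 l' := φ.2.1 l l' h

theorem fa_zero (l : List C) : fa D 0 l = 0 := by
  have := fa_smul D 0 0 l
  simpa using this

theorem W_zero2 (φ : W F C) (y : C) (l : List C) : φ.1 (y :: (0 : C) :: l) = 0 := by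
  rw [W_perm φ (List.Perm.swap 0 y l), W_zero]

theorem fa_cons_zero (y : C) (l : List C) : fa D y (0 :: l) = 0 := by
  have := fa_cons_smul D y 0 0 l
  simpa using this

theorem fu_cons_zero (u : M) (l : List C) : fu D u (0 :: l) = 0 := by
  have := fu_cons_smul D u 0 0 l
  simpa using this

theorem op0_fst (u : M) (p : W F C × Module.Dual F M) (l : List C) :
    (op D 0 u p).1.1 l = - p.2 (fu D u l) := by
  rw [op_fst, W_zero, fa_zero]; simp

theorem op0_snd (u : M) (p : W F C × Module.Dual F M) :
    (op D 0 u p).2 = 0 := by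
  ext m; rw [op_snd]; simp

theorem op_star (x y z : C) (u v w : M) (p : W F C × Module.Dual F M) :
    op D 0 (D.R z (D.β x y + D.R y u - D.R x v)) p
     = op D 0 (D.β x z + D.R z u - D.R x w) (op D y v p)
      + op D x u (op D 0 (D.β y z + D.R z v - D.R y w) p)
      - op D y v (op D x u (op D z w p)) + op D z w (op D y v (op D x u p)) := by
  apply Prod.ext
  · apply Subtype.ext
    funext l
    simp only [Prod.fst_add, Prod.fst_sub, Submodule.coe_add, Submodule.coe_sub, Pi.add_apply,
      Pi.sub_apply]
    have hp : p.1.1 (z :: x :: y :: l) = p.1.1 (x :: y :: z :: l) := by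
      apply W_perm
      exact (List.perm_append_comm (l₁ := [z]) (l₂ := [x, y])).append_right l
    have h1 := congrArg p.2 (C1 D x y z l)
    have h2 := congrArg p.2 (C2a D u y z l)
    have h3 := congrArg p.2 (C2b D v x z l)
    have h4 := congrArg p.2 (C2c D w x y l)
    simp only [op_fst, op_snd, op0_snd, W_zero, W_zero2, fa_zero, fa_cons_zero, fu_cons_zero,
      map_zero]
    simp only [fu_add, fa_add, map_add, map_sub, sub_eq_add_neg, map_neg] at h1 h2 h3 h4 ⊢
    have n1 : ∀ (a : M) (l : List C), fu D (-a) l = - fu D a l := by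
      intro a l
      have := fu_smul D (-1) a l
      simpa using this
    simp only [n1, fu_add, map_neg, map_add, map_zero, LinearMap.zero_apply, neg_zero, add_zero]
    linear_combination -h1 - h2 + h3 + h4 - hp
  · ext m
    simp only [Prod.snd_add, Prod.snd_sub, LinearMap.add_apply, LinearMap.sub_apply, op0_snd,
      op_snd, LinearMap.zero_apply]
    have := congrArg p.2 (D.cyc x y z m)
    have h2 := congrArg p.2 (D.cyc z x y m)
    linear_combination -h2

end rep

end Pool.Agent.W5h64.Metab
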