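import Pool.Agent.W5h64.Metab
import Pool.Agent.W5h64.MalDefs

/-! Every metabelian Malcev algebra in characteristic zero has a faithful representation. -/

namespace Pool.Agent.W5h64.Mal

open Pool.Agent.W5h64.Metab

universe u v

variable {F : Type u} {A : Type v} [Field F] [AddCommGroup A] [Module F A]

/-- linearised Malcev identity -/
theorem IsMalcev.lin {m : A →ₗ[F] A →ₗ[F] A} (h : IsMalcev m) (x t y z : A) :
    m (m x y) (m t z) + m (m t y) (m x z) =
      m (m (m x y) z) t + m (m (m t y) z) x + m (m (m y z) x) t + m (m (m y z) t) x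
       + m (m (m z x) t) y + m (m (m z t) x) y := by
  have h1 := h.malcev (x + t) y z
  have h2 := h.malcev x y z
  have h3 := h.malcev t y z
  simp only [map_add, LinearMap.add_apply] at h1
  linear_combination (norm := module) h1 - h2 - h3

/-- Sagle's identity for metabelian Malcev algebras -/
theorem IsMalcev.sagle0 [CharZero F] {m : A →ₗ[F] A →ₗ[F] A} (h : IsMalcev m)
    (hab : ∀ a b c d, m (m a b) (m c d) = 0) (x y z t : A) :
    m (m (m x y) z) t + m (m (m y z) t) x + m (m (m z t) x) y + m (m (m t x) y) z = 0 := by
  have h1 := h.lin x t y z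
  have h2 := h.lin x y z t
  have h3 := h.lin x z t y
  simp only [hab, add_zero] at h1 h2 h3
  simp only [h.swap y x, h.swap z x, h.swap t x, h.swap z y, h.swap t y, h.swap t z, map_neg,
    LinearMap.neg_apply] at h1 h2 h3 ⊢
  linear_combination (norm := module) (-1/2 : F) • h1 - (1/2 : F) • h2 + (1/2 : F) • h3

/-- the derived subalgebra `A²` as a subspace -/
def sqr (m : A →ₗ[F] A →ₗ[F] A) : Submodule F A := Submodule.span F {x | ∃ a b, m a b = x}

theorem mul_mem_sqr (m : A →ₗ[F] A →ₗ[F] A) (a b : A) : m a b ∈ sqr m :=
  Submodule.subset_span ⟨a, b, rfl⟩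

theorem sqr_mul_sqr {m : A →ₗ[F] A →ₗ[F] A} (hab : ∀ a b c d, m (m a b) (m c d) = 0)
    {x y : A} (hx : x ∈ sqr m) (hy : y ∈ sqr m) : m x y = 0 := by
  induction hx using Submodule.span_induction with
  | mem x hx =>
    obtain ⟨a, b, rfl⟩ := hx
    induction hy using Submodule.span_induction with
    | mem y hy => obtain ⟨c, d, rfl⟩ := hy; exact hab a b c d
    | zero => simp
    | add y y' _ _ h1 h2 => rw [map_add, h1, h2, add_zero]
    | smul c y _ h1 => rw [map_smul, h1, smul_zero]
  | zero => simp
  | add y y' _ _ h1 h2 => rw [map_add, LinearMap.add_apply, h1, h2, add_zero]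
  | smul c y _ h1 => rw [map_smul, LinearMap.smul_apply, h1, smul_zero]

section build
variable [CharZero F] (m : A →ₗ[F] A →ₗ[F] A) (h : IsMalcev m)
    (hab : ∀ a b c d, m (m a b) (m c d) = 0) (C : Submodule F A)

def dat : Dat F C (sqr m) where
  R := LinearMap.mk₂ F (fun c u => ⟨m u.1 c.1, mul_mem_sqr m _ _⟩)
    (by intro a b c; ext; simp) (by intro a b c; ext; simp)
    (by intro a b c; ext; simp) (by intro a b c; ext; simp)
  β := LinearMap.mk₂ F (fun c d => ⟨m c.1 d.1, mul_mem_sqr m _ _⟩)
    (by intro a b c; ext; simp) (by intro a b c; ext; simp)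
    (by intro a b c; ext; simp) (by intro a b c; ext; simp)
  alt := by intro x; ext; simp [h.sq]
  cyc := by
    rintro ⟨x, hx⟩ ⟨y, hy⟩ ⟨z, hz⟩ ⟨u, hu⟩
    ext
    simp only [LinearMap.mk₂_apply]
    have h1 := h.sagle0 hab z y x u
    have e1 : m (m (m z y) x) u = 0 := sqr_mul_sqr hab (mul_mem_sqr _ _ _) hu
    have e2 : m (m y x) u = 0 := sqr_mul_sqr hab (mul_mem_sqr _ _ _) hu
    rw [e1, e2, h.swap x u] at h1
    simp only [map_neg, LinearMap.neg_apply, map_zero, LinearMap.zero_apply] at h1
    linear_combination (norm := module) h1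
  S := by
    rintro ⟨x, hx⟩ ⟨y, hy⟩ ⟨z, hz⟩ ⟨t, ht⟩
    ext
    simp only [LinearMap.mk₂_apply, Submodule.coe_add, Submodule.coe_zero]
    exact h.sagle0 hab x y z t

@[simp] theorem dat_R (c : C) (u : sqr m) : (((dat m h hab C).R c u : sqr m) : A) = m u.1 c.1 := rfl
@[simp] theorem dat_β (c d : C) : (((dat m h hab C).β c d : sqr m) : A) = m c.1 d.1 := rfl

variable (hC : IsCompl (sqr m) C)

/-- the representation -/
noncomputable def rho :
    A →ₗ[F] Module.End F (W F C × Module.Dual F (sqr m)) where
  toFun a := op (dat m h hab C) (C.projectionOnto (sqr m) hC.symm a)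
    ((sqr m).projectionOnto C hC a)
  map_add' a b := by
    apply LinearMap.ext
    intro p
    apply Prod.ext
    · apply Subtype.ext
      funext l
      simp only [map_add, op_fst, LinearMap.add_apply, Prod.fst_add, Submodule.coe_add,
        Pi.add_apply]
      rw [p.1.2.2.1, fa_add, fu_add]
      simp only [map_add]
      ring
    · ext n
      simp only [map_add, op_snd, LinearMap.add_apply, Prod.snd_add]
      ring
  map_smul' t a := by
    apply LinearMap.ext
    intro p
    apply Prod.ext
    · apply Subtype.ext
      funext l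
      simp only [map_smul, op_fst, LinearMap.smul_apply, Prod.smul_fst, Submodule.coe_smul,
        Pi.smul_apply, RingHom.id_apply]
      rw [p.1.2.2.2, fa_smul, fu_smul]
      simp only [map_add, map_smul, smul_eq_mul]
      ring
    · ext n
      simp only [map_smul, op_snd, LinearMap.smul_apply, Prod.smul_snd, RingHom.id_apply,
        smul_eq_mul]
      ring

theorem rho_apply (a : A) : rho m h hab C hC a =
    op (dat m h hab C) (C.projectionOnto (sqr m) hC.symm a) ((sqr m).projectionOnto C hC a) := rfl

theorem rho_star : Star m (rho m h hab C hC) := by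
  intro x y z p
  set D := dat m h hab C with hD
  have key : ∀ x y : A, C.projectionOnto (sqr m) hC.symm (m x y) = 0 ∧
      (sqr m).projectionOnto C hC (m x y) =
        D.β (C.projectionOnto (sqr m) hC.symm x) (C.projectionOnto (sqr m) hC.symm y)
        + D.R (C.projectionOnto (sqr m) hC.symm y) ((sqr m).projectionOnto C hC x)
        - D.R (C.projectionOnto (sqr m) hC.symm x) ((sqr m).projectionOnto C hC y) := by
    intro x y
    refine ⟨(Submodule.projectionOnto_apply_eq_zero_iff hC.symm).mpr (mul_mem_sqr m x y), ?_⟩
    ext
    rw [Submodule.projectionOnto_apply_of_mem_left hC (mul_mem_sqr m x y)]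
    simp only [Submodule.coe_add, Submodule.coe_sub, hD, dat_R, dat_β]
    have hx : ((sqr m).projectionOnto C hC x : A) + (C.projectionOnto (sqr m) hC.symm x : A) = x := by
      have := Submodule.projection_add_projection_eq_self hC x
      rw [Submodule.projection_apply, Submodule.projection_apply] at this
      exact this
    have hy : ((sqr m).projectionOnto C hC y : A) + (C.projectionOnto (sqr m) hC.symm y : A) = y := by
      have := Submodule.projection_add_projection_eq_self hC y
      rw [Submodule.projection_apply, Submodule.projection_apply] at this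
      exact this
    have hmm : m ((sqr m).projectionOnto C hC x : A) ((sqr m).projectionOnto C hC y : A) = 0 :=
      sqr_mul_sqr hab ((sqr m).projectionOnto C hC x).2 ((sqr m).projectionOnto C hC y).2
    have e : m x y = m (((sqr m).projectionOnto C hC x : A) + (C.projectionOnto (sqr m) hC.symm x : A))
      (((sqr m).projectionOnto C hC y : A) + (C.projectionOnto (sqr m) hC.symm y : A)) := by
      rw [hx, hy]
    rw [e]
    simp only [map_add, LinearMap.add_apply, hmm]
    rw [h.swap (C.projectionOnto (sqr m) hC.symm x : A) ((sqr m).projectionOnto C hC y : A)]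
    abel
  simp only [rho_apply]
  have k1 := key (m x y) z
  have k2 := key x z
  have k3 := key y z
  have k4 := key x y
  have := op_star D (C.projectionOnto (sqr m) hC.symm x) (C.projectionOnto (sqr m) hC.symm y)
    (C.projectionOnto (sqr m) hC.symm z) ((sqr m).projectionOnto C hC x)
    ((sqr m).projectionOnto C hC y) ((sqr m).projectionOnto C hC z) p
  rw [k1.1, k1.2, k2.1, k2.2, k3.1, k3.2, k4.1, k4.2, ← this]
  congr 1
  simp
  rfl

theorem rho_injective : Function.Injective (rho m h hab C hC) := by
  rw [injective_iff_map_eq_zero]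
  intro a ha
  have hc : C.projectionOnto (sqr m) hC.symm a = 0 := by
    by_contra hne
    obtain ⟨f, hf⟩ : ∃ f : Module.Dual F C, f (C.projectionOnto (sqr m) hC.symm a) ≠ 0 := by
      by_contra hcon
      push Not at hcon
      exact hne ((Module.forall_dual_apply_eq_zero_iff F _).mp hcon)
    let φ : List C → F := fun l => match l with
      | [c] => f c
      | _ => 0
    have hφ : φ ∈ W F C := by
      refine ⟨fun l l' hl => ?_, fun b c l => ?_, fun t b l => ?_⟩
      · match l, l', hl.length_eq with
        | [], [], _ => rfl
        | [a], [b], _ =>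
          have : a = b := by simpa using hl
          rw [this]
        | (a :: b :: l), (a' :: b' :: l'), _ => rfl
      · match l with
        | [] => simp [φ]
        | (a :: l) => simp [φ]
      · match l with
        | [] => simp [φ]
        | (a :: l) => simp [φ]
    have h2 := congrArg (fun T => (T (⟨φ, hφ⟩, 0)).1.1 []) ha
    simp only [rho_apply, op_fst] at h2
    simp [φ] at h2
    exact hf h2
  have hq : (sqr m).projectionOnto C hC a = 0 := by
    refine (Module.forall_dual_apply_eq_zero_iff F _).mp fun f => ?_
    have h2 := congrArg (fun T => (T (0, f)).1.1 []) ha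
    simp only [rho_apply, op_fst, hc] at h2
    simp [fa_zero, fu, κ0] at h2
    exact h2
  have := Submodule.projection_add_projection_eq_self hC a
  simp only [Submodule.projection_apply, hq, hc, Submodule.coe_zero, add_zero] at this
  exact this.symm

end build

/-- Every metabelian Malcev algebra over a field of characteristic zero has a faithful
representation. -/
theorem metab_faithful [CharZero F] (m : A →ₗ[F] A →ₗ[F] A) (h : IsMalcev m)
    (hab : ∀ a b c d, m (m a b) (m c d) = 0) :
    ∃ (V : Type (max u v)) (_ : AddCommGroup V) (_ : Module F V) (ρ : A →ₗ[F] Module.End F V),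
      Star m ρ ∧ Function.Injective ρ := by
  obtain ⟨C, hC⟩ := Submodule.exists_isCompl (sqr m)
  exact ⟨_, _, _, rho m h hab C hC, rho_star m h hab C hC, rho_injective m h hab C hC⟩

end Pool.Agent.W5h64.Mal
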